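import Mathlib

/-!
# Chains of large terms: the union bound
-/

set_option autoImplicit false

open Finset

namespace Pool.Agent.L5helper22.GZ

/-- There are `r` further indices (from `a` on) at which the terms of the sequence `g` (with
sums `s`) are so large that the product of the quotients `g i / (block sum + 1)` is at least `Y`. -/
def Ext (g s : ℕ → ℕ) (L Smax B3 : ℕ) : ℕ → ℕ → ℕ → ℝ → Prop
  | 0, _, _, Y => Y ≤ 1
  | r + 1, a, Q, Y => ∃ i, a ≤ i ∧ i < L ∧ s i < Smax ∧ Nat.gcd Q (g i) ≤ B3 ∧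
      Ext g s L Smax B3 r (i + 1) (Nat.lcm Q (g i)) (Y * ((((s i - s a : ℕ) : ℝ) + 1) / g i))

lemma card_congr_le {T : Finset ℕ} {X Q : ℕ} (hT : ∀ m ∈ T, m ≤ X)
    (hQ : ∀ m ∈ T, ∀ m' ∈ T, m ≡ m' [MOD Q]) : T.card ≤ X / Q + 1 := by
  have h1 : Set.InjOn (fun m : ℕ => m / Q) T := by
    intro m hm m' hm' h
    have h2 : m % Q = m' % Q := hQ m hm m' hm'
    have h3 : m / Q = m' / Q := h
    rw [← Nat.div_add_mod m Q, ← Nat.div_add_mod m' Q, h2, h3]
  have h2 : ∀ m ∈ T, m / Q ∈ range (X / Q + 1) := by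
    intro m hm
    rw [mem_range]
    exact Nat.lt_succ_of_le (Nat.div_le_div_right (hT m hm))
  calc T.card = (T.image fun m : ℕ => m / Q).card := (card_image_of_injOn h1).symm
    _ ≤ (range (X / Q + 1)).card := card_le_card fun x hx => by
        obtain ⟨m, hm, rfl⟩ := mem_image.mp hx
        exact h2 m hm
    _ = X / Q + 1 := card_range _

lemma modEq_lcm {m m' Q g : ℕ} (h1 : m ≡ m' [MOD Q]) (h2 : m ≡ m' [MOD g]) :
    m ≡ m' [MOD Nat.lcm Q g] := by
  rw [Nat.modEq_iff_dvd] at h1 h2 ⊢
  rw [Int.natCast_dvd] at h1 h2 ⊢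
  exact Nat.lcm_dvd h1 h2

theorem count {Λ : Type*} [DecidableEq Λ] (X L Smax B3 Gmax Dv : ℕ) (H : ℝ)
    (g s : ℕ → ℕ → ℕ) (Good : ℕ → Prop)
    (hs : ∀ m i, s m (i + 1) = s m i + g m i) (hg : ∀ m i, Good m → 0 < g m i)
    (D : ℕ → ℕ → Finset Λ) (hD : ∀ i t, i < L → t < Smax → (D i t).card ≤ Dv)
    (lab : ℕ → ℕ → Λ)
    (hlab : ∀ m i, Good m → i < L → s m i < Smax → lab m i ∈ D i (s m i))
    (hcong : ∀ m m' i, Good m → Good m' → i < L → s m i < Smax → s m' i < Smax →
      lab m i = lab m' i → g m i = g m' i ∧ m ≡ m' [MOD g m i])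
    (hG : ∀ m i, Good m → i < L → s m i < Smax → g m i ≤ Gmax)
    (hH : ∑ t ∈ range Smax, 1 / ((t : ℝ) + 1) ≤ H) :
    ∀ (r a Q : ℕ) (Y : ℝ) (S : ℕ) (T : Finset ℕ),
      (∀ m ∈ T, Good m ∧ m ≤ X ∧ s m a = S ∧ Ext (g m) (s m) L Smax B3 r a Q Y) →
      (∀ m ∈ T, ∀ m' ∈ T, m ≡ m' [MOD Q]) → 0 < Q → Q * Gmax ^ r ≤ X → 0 < Y →
      (T.card : ℝ) * Q * Y ≤ 2 * X * (L * H * Dv * B3) ^ r := by
  have hH0 : 0 ≤ H := le_trans (sum_nonneg fun t _ => by positivity) hH
  intro r
  induction r with
  | zero =>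
    intro a Q Y S T hT hcg hQ hQX hY
    simp only [pow_zero, mul_one] at hQX ⊢
    rcases T.eq_empty_or_nonempty with rfl | ⟨m, hm⟩
    · simp
    · have hY1 : Y ≤ 1 := (hT m hm).2.2.2
      have h1 := card_congr_le (X := X) (fun m hm => (hT m hm).2.1) hcg
      have h2 : T.card * Q ≤ X + Q := by
        calc T.card * Q ≤ (X / Q + 1) * Q := Nat.mul_le_mul_right _ h1
          _ = X / Q * Q + Q := by ring
          _ ≤ X + Q := by have := Nat.div_mul_le_self X Q; omega
      have h3 : (T.card : ℝ) * Q ≤ X + Q := by exact_mod_cast h2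
      have h4 : (Q : ℝ) ≤ X := by exact_mod_cast hQX
      have h5 : 0 ≤ (T.card : ℝ) * Q := by positivity
      nlinarith
  | succ r ih =>
    intro a Q Y S T hT hcg hQ hQX hY
    classical
    have mono : ∀ m, Monotone (s m) := fun m => monotone_nat_of_le_succ fun i => by
      rw [hs]; omega
    set P : ℕ → ℕ → Λ → ℕ → Prop := fun i t l m =>
      a ≤ i ∧ i < L ∧ s m i < Smax ∧ s m i - s m a = t ∧ lab m i = l ∧
        Nat.gcd Q (g m i) ≤ B3 ∧
        Ext (g m) (s m) L Smax B3 r (i + 1) (Nat.lcm Q (g m i))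
          (Y * (((t : ℝ) + 1) / g m i)) with hP
    set M : ℝ := L * H * Dv * B3 with hM
    have hM0 : 0 ≤ M := by positivity
    -- the pieces
    have piece : ∀ i t l, ((T.filter (P i t l)).card : ℝ) * Q * Y ≤
        2 * X * M ^ r * B3 * (1 / ((t : ℝ) + 1)) := by
      intro i t l
      rcases (T.filter (P i t l)).eq_empty_or_nonempty with h0 | ⟨m0, hm0⟩
      · rw [h0]
        simp only [card_empty, Nat.cast_zero, zero_mul]
        positivity
      · rw [mem_filter] at hm0
        obtain ⟨hm0T, hai, hiL, hlt, hst, hl, hgcd, hext⟩ := hm0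
        obtain ⟨hgood0, hX0, hS0, -⟩ := hT m0 hm0T
        set g0 := g m0 i with hg0
        have hg0pos : 0 < g0 := hg m0 i hgood0
        have hall : ∀ m ∈ T.filter (P i t l), g m i = g0 ∧ m ≡ m0 [MOD g0] := by
          intro m hm
          rw [mem_filter] at hm
          obtain ⟨hmT, -, -, hlt', -, hl', -⟩ := hm
          obtain ⟨e1, e2⟩ := hcong m m0 i (hT m hmT).1 hgood0 hiL hlt' hlt (hl'.trans hl.symm)
          rw [e1] at e2
          exact ⟨e1, e2⟩
        have hSi : ∀ m ∈ T.filter (P i t l), s m (i + 1) = S + t + g0 := by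
          intro m hm
          have e1 := (hall m hm).1
          rw [mem_filter] at hm
          obtain ⟨hmT, hai', -, -, hst', -⟩ := hm
          have e2 := (hT m hmT).2.2.1
          have e3 := mono m hai'
          rw [hs, e1]
          omega
        have key := ih (i + 1) (Nat.lcm Q g0) (Y * (((t : ℝ) + 1) / g0)) (S + t + g0)
          (T.filter (P i t l)) (by
            intro m hm
            have e1 := (hall m hm).1
            have e2 := hSi m hm
            rw [mem_filter] at hm
            obtain ⟨hmT, -, -, -, -, -, -, hext'⟩ := hm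
            rw [e1] at hext'
            exact ⟨(hT m hmT).1, (hT m hmT).2.1, e2, hext'⟩) (by
            intro m hm m' hm'
            refine modEq_lcm (hcg m (mem_filter.mp hm).1 m' (mem_filter.mp hm').1) ?_
            exact (hall m hm).2.trans (hall m' hm').2.symm)
            (Nat.lcm_pos hQ hg0pos) (by
            have e1 : g0 ≤ Gmax := hG m0 i hgood0 hiL hlt
            have e2 : Nat.lcm Q g0 ≤ Q * g0 := Nat.le_of_dvd (Nat.mul_pos hQ hg0pos)
              (Nat.lcm_dvd_mul Q g0)
            calc Nat.lcm Q g0 * Gmax ^ r ≤ (Q * Gmax) * Gmax ^ r :=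
                  Nat.mul_le_mul_right _ (e2.trans (Nat.mul_le_mul_left _ e1))
              _ = Q * Gmax ^ (r + 1) := by ring
              _ ≤ X := hQX) (by positivity)
        have hgr : (0 : ℝ) < g0 := by exact_mod_cast hg0pos
        have e3 : (Nat.gcd Q g0 : ℝ) * (Nat.lcm Q g0 : ℝ) = Q * g0 := by
          exact_mod_cast Nat.gcd_mul_lcm Q g0
        have e4 : (Nat.gcd Q g0 : ℝ) ≤ B3 := by exact_mod_cast hgcd
        have e5 : ((T.filter (P i t l)).card : ℝ) * Q * Y * ((t : ℝ) + 1) =
            Nat.gcd Q g0 * (((T.filter (P i t l)).card : ℝ) * (Nat.lcm Q g0 : ℝ) *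
              (Y * (((t : ℝ) + 1) / g0))) := by
          calc ((T.filter (P i t l)).card : ℝ) * Q * Y * ((t : ℝ) + 1) =
              ((T.filter (P i t l)).card : ℝ) * (Q * g0) * (Y * (((t : ℝ) + 1) / g0)) := by
                field_simp
            _ = _ := by rw [← e3]; ring
        have e6 : ((T.filter (P i t l)).card : ℝ) * Q * Y * ((t : ℝ) + 1) ≤
            B3 * (2 * X * M ^ r) := by
          rw [e5]
          exact mul_le_mul e4 key (by positivity) (by positivity)
        have e7 : (0 : ℝ) < (t : ℝ) + 1 := by positivity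
        calc ((T.filter (P i t l)).card : ℝ) * Q * Y =
            ((T.filter (P i t l)).card : ℝ) * Q * Y * ((t : ℝ) + 1) * (1 / ((t : ℝ) + 1)) := by
              field_simp
          _ ≤ B3 * (2 * X * M ^ r) * (1 / ((t : ℝ) + 1)) :=
              mul_le_mul_of_nonneg_right e6 (by positivity)
          _ = _ := by ring
    -- the cover
    have cover : T ⊆ (range L).biUnion fun i => (range Smax).biUnion fun t =>
        ((if S + t < Smax then D i (S + t) else ∅ : Finset Λ)).biUnion fun l =>
          T.filter (P i t l) := by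
      intro m hm
      obtain ⟨hgood, hX, hSa, hext⟩ := hT m hm
      obtain ⟨i, hai, hiL, hlt, hgcd, hext'⟩ := hext
      have e1 := mono m hai
      rw [mem_biUnion]
      refine ⟨i, mem_range.mpr hiL, ?_⟩
      rw [mem_biUnion]
      refine ⟨s m i - s m a, mem_range.mpr (by omega), ?_⟩
      rw [mem_biUnion]
      have e2 : S + (s m i - s m a) = s m i := by omega
      refine ⟨lab m i, ?_, ?_⟩
      · rw [e2, if_pos hlt]
        exact hlab m i hgood hiL hlt
      · rw [mem_filter]
        exact ⟨hm, hai, hiL, hlt, rfl, rfl, hgcd, hext'⟩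
    have c1 : (T.card : ℝ) ≤ ∑ i ∈ range L, ∑ t ∈ range Smax,
        ∑ l ∈ (if S + t < Smax then D i (S + t) else ∅ : Finset Λ),
          ((T.filter (P i t l)).card : ℝ) := by
      have h1 := card_le_card cover
      have h2 := h1.trans (card_biUnion_le)
      have h3 : T.card ≤ ∑ i ∈ range L, ∑ t ∈ range Smax,
          ∑ l ∈ (if S + t < Smax then D i (S + t) else ∅ : Finset Λ),
            (T.filter (P i t l)).card :=
        h2.trans (sum_le_sum fun i _ => card_biUnion_le.trans
          (sum_le_sum fun t _ => card_biUnion_le))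
      exact_mod_cast h3
    have hQY : (0 : ℝ) ≤ Q * Y := by positivity
    have cst : 0 ≤ 2 * (X : ℝ) * M ^ r * B3 := by positivity
    calc (T.card : ℝ) * Q * Y = (T.card : ℝ) * (Q * Y) := by ring
      _ ≤ (∑ i ∈ range L, ∑ t ∈ range Smax,
        ∑ l ∈ (if S + t < Smax then D i (S + t) else ∅ : Finset Λ),
          ((T.filter (P i t l)).card : ℝ)) * (Q * Y) := mul_le_mul_of_nonneg_right c1 hQY
      _ = ∑ i ∈ range L, ∑ t ∈ range Smax,
        ∑ l ∈ (if S + t < Smax then D i (S + t) else ∅ : Finset Λ),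
          ((T.filter (P i t l)).card : ℝ) * Q * Y := by
          rw [sum_mul]
          refine sum_congr rfl fun i _ => ?_
          rw [sum_mul]
          refine sum_congr rfl fun t _ => ?_
          rw [sum_mul]
          exact sum_congr rfl fun l _ => by ring
      _ ≤ ∑ i ∈ range L, ∑ t ∈ range Smax,
        ∑ _l ∈ (if S + t < Smax then D i (S + t) else ∅ : Finset Λ),
          2 * X * M ^ r * B3 * (1 / ((t : ℝ) + 1)) :=
          sum_le_sum fun i _ => sum_le_sum fun t _ => sum_le_sum fun l _ => piece i t l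
      _ ≤ ∑ _i ∈ range L, ∑ t ∈ range Smax, Dv * (2 * X * M ^ r * B3 * (1 / ((t : ℝ) + 1))) := by
          refine sum_le_sum fun i hi => sum_le_sum fun t _ => ?_
          rw [sum_const, nsmul_eq_mul]
          refine mul_le_mul_of_nonneg_right ?_ (by positivity)
          split_ifs with h
          · exact_mod_cast hD i (S + t) (mem_range.mp hi) h
          · simp
      _ = L * (Dv * (2 * X * M ^ r * B3 * ∑ t ∈ range Smax, 1 / ((t : ℝ) + 1))) := by
          rw [sum_const, card_range, nsmul_eq_mul]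
          congr 1
          rw [mul_sum, mul_sum]
      _ ≤ L * (Dv * (2 * X * M ^ r * B3 * H)) := by gcongr
      _ = 2 * X * M ^ (r + 1) := by rw [hM]; ring

end Pool.Agent.L5helper22.GZ
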