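import Pool.Agent.L5helper22.GZ.Zeros

/-!
# The choice of the parameters
-/

set_option autoImplicit false

open Finset

namespace Pool.Agent.L5helper22.GZ

lemma ee_eq (R K : ℕ) : ∀ r, ee R K r = 1 + r * ((K + 2) * (R + 2)) := by
  intro r
  induction r with
  | zero => simp [ee]
  | succ r ih => rw [ee, ih]; ring

/-- the lower bound for `ℓ` -/
noncomputable def l0 (p : ℕ) : ℝ :=
  720 * (p : ℝ) ^ 6 * (3 + 2 * (6 * p) ^ 5) + ((2 * p).factorial : ℝ) + 22

lemma l0_facts {p : ℕ} (hp : p.Prime) {l : ℝ} (hl : l0 p ≤ l) :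
    22 ≤ l ∧ ((2 * p).factorial : ℝ) ≤ Real.exp l ∧
      3 + 2 * (6 * p * l) ^ 5 ≤ Real.exp (l / p) := by
  have hp0 : (0 : ℝ) < p := by exact_mod_cast hp.pos
  have h1 : (0 : ℝ) ≤ 720 * (p : ℝ) ^ 6 * (3 + 2 * (6 * p) ^ 5) := by positivity
  have h2 : (0 : ℝ) ≤ ((2 * p).factorial : ℝ) := by positivity
  unfold l0 at hl
  have h3 : 22 ≤ l := by linarith
  refine ⟨h3, ?_, ?_⟩
  · have := Real.add_one_le_exp l
    linarith
  · have h4 := Real.pow_div_factorial_le_exp (l / p) (by positivity) 6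
    refine le_trans ?_ h4
    have h5 : 720 * (p : ℝ) ^ 6 * (3 + 2 * (6 * p) ^ 5) ≤ l := by linarith
    have h6 : (1 : ℝ) ≤ l ^ 5 := one_le_pow₀ (by linarith)
    have h7 : ((Nat.factorial 6 : ℕ) : ℝ) = 720 := by norm_num [Nat.factorial]
    rw [h7, div_pow, div_div, le_div_iff₀ (by positivity)]
    calc (3 + 2 * (6 * p * l) ^ 5) * ((p : ℝ) ^ 6 * 720)
        = 720 * (p : ℝ) ^ 6 * (3 * 1 + 2 * (6 * p) ^ 5 * l ^ 5) := by ring
      _ ≤ 720 * (p : ℝ) ^ 6 * (3 * l ^ 5 + 2 * (6 * p) ^ 5 * l ^ 5) := by gcongr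
      _ = (720 * (p : ℝ) ^ 6 * (3 + 2 * (6 * p) ^ 5)) * l ^ 5 := by ring
      _ ≤ l * l ^ 5 := by gcongr
      _ = l ^ 6 := by ring

/-- there is a length `L ≥ 10 exp l` for which there are few short descents -/
theorem exists_length {p : ℕ} (hp : p.Prime) (X : ℕ) (l : ℝ) (hl : l0 p ≤ l)
    (hX : Real.log X = (6 * p * l) ^ 5) :
    ∃ L : ℕ, 10 * Real.exp l ≤ L ∧ 0 < L ∧ L ≤ X ∧ 1 ≤ X ∧ ∀ Z : Finset ℕ,
      (∀ n ∈ Z, 1 ≤ n ∧ n ≤ X ∧ Short p L n) → (Z.card : ℝ) ≤ 3 * ((X + 1 : ℕ) : ℝ) / L := by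
  obtain ⟨hl22, hF0, hF1⟩ := l0_facts hp hl
  have hp0 : (0 : ℝ) < p := by exact_mod_cast hp.pos
  have hp2 : (2 : ℝ) ≤ p := by exact_mod_cast hp.two_le
  have hl0 : (0 : ℝ) < l := by linarith
  have hΛ : 0 < (6 * p * l) ^ 5 := by positivity
  have hX1 : 1 < (X : ℝ) := by
    by_contra hcon
    push Not at hcon
    have := Real.log_nonpos (Nat.cast_nonneg X) hcon
    linarith
  have hXexp : (X : ℝ) = Real.exp ((6 * p * l) ^ 5) := by
    rw [← hX, Real.exp_log (by linarith)]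
  have hX1n : 1 < X := by exact_mod_cast hX1
  -- the parameters
  obtain ⟨L, hLdef⟩ : ∃ L : ℕ, L = ⌈10 * Real.exp l⌉₊ := ⟨_, rfl⟩
  obtain ⟨R, hRdef⟩ : ∃ R : ℕ, R = ⌈2 * l⌉₊ + 4 := ⟨_, rfl⟩
  obtain ⟨k, hkdef⟩ : ∃ k : ℕ, k = ⌈10 * l⌉₊ := ⟨_, rfl⟩
  obtain ⟨E, hEdef⟩ : ∃ E : ℕ, E = ⌈Real.exp (22 * p ^ 2 * l ^ 2)⌉₊ := ⟨_, rfl⟩
  obtain ⟨Smax, hSdef⟩ : ∃ Smax : ℕ, Smax = (2 * L * E) ^ ee R 2 R := ⟨_, rfl⟩
  have hexpl : 1 ≤ Real.exp l := Real.one_le_exp hl0.le
  have hL1 : 10 * Real.exp l ≤ L := by rw [hLdef]; exact Nat.le_ceil _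
  have hL2 : (L : ℝ) ≤ 10 * Real.exp l + 1 := by
    rw [hLdef]; exact (Nat.ceil_lt_add_one (by positivity)).le
  have he3 : (16 : ℝ) ≤ Real.exp 3 := by
    have h1 : Real.exp 3 = Real.exp 1 ^ 3 := by rw [← Real.exp_nat_mul]; norm_num
    rw [h1]
    have h2 : (2.7 : ℝ) ≤ Real.exp 1 := by linarith [Real.exp_one_gt_d9]
    calc (16 : ℝ) ≤ 2.7 ^ 3 := by norm_num
      _ ≤ _ := pow_le_pow_left₀ (by norm_num) h2 3
  have hL3 : 1 + (L : ℝ) ≤ Real.exp (l + 3) := by
    rw [Real.exp_add]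
    nlinarith
  have hLpos : 0 < L := by
    have : (0 : ℝ) < L := by linarith
    exact_mod_cast this
  have hR1 : 2 * l + 4 ≤ R := by
    rw [hRdef]
    push_cast
    linarith [Nat.le_ceil (2 * l)]
  have hR2 : (R : ℝ) ≤ 2 * l + 5 := by
    rw [hRdef]
    push_cast
    linarith [(Nat.ceil_lt_add_one (show (0 : ℝ) ≤ 2 * l by positivity)).le]
  have hR3 : (R : ℝ) ≤ 3 * l := by linarith
  have hk1 : 10 * l ≤ k := by rw [hkdef]; exact Nat.le_ceil _
  have hk2 : (k : ℝ) ≤ 11 * l := by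
    have : (k : ℝ) ≤ 10 * l + 1 := by
      rw [hkdef]; exact (Nat.ceil_lt_add_one (by positivity)).le
    linarith
  have hkpos : 0 < k := by
    have : (0 : ℝ) < k := by linarith
    exact_mod_cast this
  have hE1 : Real.exp (22 * p ^ 2 * l ^ 2) ≤ E := by rw [hEdef]; exact Nat.le_ceil _
  have hE2 : (E : ℝ) ≤ Real.exp (22 * p ^ 2 * l ^ 2 + 1) := by
    have h1 : (E : ℝ) ≤ Real.exp (22 * p ^ 2 * l ^ 2) + 1 := by
      rw [hEdef]; exact (Nat.ceil_lt_add_one (Real.exp_pos _).le).le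
    have h2 : (1 : ℝ) ≤ Real.exp (22 * p ^ 2 * l ^ 2) := Real.one_le_exp (by positivity)
    have h3 : (2 : ℝ) ≤ Real.exp 1 := by linarith [Real.exp_one_gt_d9]
    rw [Real.exp_add]
    nlinarith
  have hEpos : 0 < E := by
    have : (0 : ℝ) < E := lt_of_lt_of_le (Real.exp_pos _) hE1
    exact_mod_cast this
  have hlog2 : (0.69 : ℝ) ≤ Real.log 2 := by linarith [Real.log_two_gt_d9]
  have hpow2 : ∀ n : ℕ, (2 : ℝ) ^ n = Real.exp (n * Real.log 2) := by
    intro n
    rw [mul_comm, Real.exp_mul, Real.exp_log (by norm_num), Real.rpow_natCast]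
  -- `X' = X + 1`
  have hX'1 : Real.log ((X + 1 : ℕ) : ℝ) ≤ (6 * p * l) ^ 5 + 1 := by
    have h1 : ((X + 1 : ℕ) : ℝ) ≤ 2 * X := by push_cast; linarith
    calc Real.log ((X + 1 : ℕ) : ℝ) ≤ Real.log (2 * X) :=
          Real.log_le_log (by positivity) h1
      _ = Real.log 2 + Real.log X := Real.log_mul (by norm_num) (by linarith)
      _ ≤ _ := by
          have : Real.log 2 ≤ 1 := by linarith [Real.log_two_lt_d9]
          linarith
  have hX'2 : 1 + Real.log ((2 * (X + 1) : ℕ) : ℝ) ≤ Real.exp (l / p) := by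
    have h2 : Real.log ((2 * (X + 1) : ℕ) : ℝ) = Real.log 2 + Real.log ((X + 1 : ℕ) : ℝ) := by
      rw [Nat.cast_mul, Real.log_mul (by norm_num) (by positivity)]
      norm_num
    rw [h2]
    have : Real.log 2 ≤ 1 := by linarith [Real.log_two_lt_d9]
    linarith
  have hX'3 : ((Nat.log 2 (X + 1) + 1 : ℕ) : ℝ) ≤ Real.exp (l / p) := by
    have h1 : (2 : ℝ) ^ Nat.log 2 (X + 1) ≤ ((X + 1 : ℕ) : ℝ) := by
      exact_mod_cast Nat.pow_log_le_self 2 (by omega)
    have h2 : (Nat.log 2 (X + 1) : ℝ) * Real.log 2 ≤ Real.log ((X + 1 : ℕ) : ℝ) := by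
      rw [← Real.log_pow]
      exact Real.log_le_log (by positivity) h1
    have h3 : (Nat.log 2 (X + 1) : ℝ) * 0.69 ≤ (6 * p * l) ^ 5 + 1 :=
      (mul_le_mul_of_nonneg_left hlog2 (by positivity)).trans (h2.trans hX'1)
    push_cast
    linarith
  have hlp : Real.exp (l / p) ≤ Real.exp l :=
    Real.exp_le_exp.mpr (div_le_self hl0.le (by linarith))
  -- the condition on `k`
  have hkL : 4 * (L : ℝ) ^ 2 * (1 + Real.log ((2 * (X + 1) : ℕ) : ℝ)) ^ p ≤ 2 ^ k := by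
    have h0 : (0 : ℝ) ≤ Real.log ((2 * (X + 1) : ℕ) : ℝ) := Real.log_natCast_nonneg _
    have h1 : (1 + Real.log ((2 * (X + 1) : ℕ) : ℝ)) ^ p ≤ Real.exp l := by
      calc _ ≤ Real.exp (l / p) ^ p := pow_le_pow_left₀ (by linarith) hX'2 p
        _ = Real.exp l := by
          rw [← Real.exp_nat_mul]
          congr 1
          field_simp
    have h2 : (4 : ℝ) ≤ Real.exp 2 := by
      have e1 : Real.exp 2 = Real.exp 1 ^ 2 := by rw [← Real.exp_nat_mul]; norm_num
      rw [e1]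
      have : (2.7 : ℝ) ≤ Real.exp 1 := by linarith [Real.exp_one_gt_d9]
      calc (4 : ℝ) ≤ 2.7 ^ 2 := by norm_num
        _ ≤ _ := pow_le_pow_left₀ (by norm_num) this 2
    have h3 : (L : ℝ) ^ 2 ≤ Real.exp (2 * (l + 3)) := by
      rw [two_mul, Real.exp_add, ← sq]
      exact pow_le_pow_left₀ (by positivity) (by linarith) 2
    calc 4 * (L : ℝ) ^ 2 * (1 + Real.log ((2 * (X + 1) : ℕ) : ℝ)) ^ p
        ≤ Real.exp 2 * Real.exp (2 * (l + 3)) * Real.exp l := by gcongr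
      _ = Real.exp (2 + 2 * (l + 3) + l) := by rw [Real.exp_add, Real.exp_add]
      _ ≤ Real.exp (k * Real.log 2) := by
          apply Real.exp_le_exp.mpr
          have h4 : (10 * l) * 0.69 ≤ k * Real.log 2 := by
            apply mul_le_mul hk1 hlog2 (by norm_num) (by positivity)
          linarith
      _ = 2 ^ k := (hpow2 k).symm
  -- the condition on `R`
  have hRL : L < 2 ^ R := by
    have h1 : (L : ℝ) < 2 ^ R := by
      rw [hpow2]
      calc (L : ℝ) < Real.exp (l + 3) := by linarith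
        _ ≤ _ := by
          apply Real.exp_le_exp.mpr
          have h4 : (2 * l + 4) * 0.69 ≤ R * Real.log 2 := by
            apply mul_le_mul hR1 hlog2 (by norm_num) (by positivity)
          linarith
    exact_mod_cast h1
  -- the bound for `C3`
  have hpl : (0 : ℝ) < p * l := by positivity
  have hC3 : (C3 p L : ℝ) ≤ Real.exp (3 * p ^ 2 * l) := by
    have h1 : (1 + (L : ℝ)) ^ p + 1 ≤ Real.exp (1 + p * (l + 3)) := by
      have h2 : (1 + (L : ℝ)) ^ p ≤ Real.exp (p * (l + 3)) := by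
        rw [Real.exp_nat_mul]
        exact pow_le_pow_left₀ (by positivity) hL3 p
      have h3 : (1 : ℝ) ≤ Real.exp (p * (l + 3)) := Real.one_le_exp (by positivity)
      have h4 : (2 : ℝ) ≤ Real.exp 1 := by linarith [Real.exp_one_gt_d9]
      rw [Real.exp_add]
      nlinarith
    unfold C3
    push_cast
    calc ((2 * p).factorial : ℝ) * ((1 + (L : ℝ)) ^ p + 1) ^ (2 * p)
        ≤ Real.exp l * Real.exp (1 + p * (l + 3)) ^ (2 * p) := by gcongr
      _ = Real.exp (l + (2 * p) * (1 + p * (l + 3))) := by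
          rw [← Real.exp_nat_mul, ← Real.exp_add]
          push_cast
          ring_nf
      _ ≤ _ := by
          apply Real.exp_le_exp.mpr
          nlinarith [mul_self_nonneg ((p : ℝ) - 2), mul_pos hp0 hp0, mul_pos (mul_pos hp0 hp0) hl0]
  have hC3R : ((C3 p L ^ R : ℕ) : ℝ) ≤ Real.exp (9 * p ^ 2 * l ^ 2) := by
    push_cast
    calc (C3 p L : ℝ) ^ R ≤ Real.exp (3 * p ^ 2 * l) ^ R :=
          pow_le_pow_left₀ (by positivity) hC3 R
      _ = Real.exp (R * (3 * p ^ 2 * l)) := by rw [← Real.exp_nat_mul]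
      _ ≤ Real.exp ((3 * l) * (3 * p ^ 2 * l)) := by
          apply Real.exp_le_exp.mpr
          gcongr
      _ = _ := by ring_nf
  -- the condition on `E`
  have hH0 : (0 : ℝ) ≤ 1 + Real.log ((X + 1 : ℕ) : ℝ) := by
    have : (0 : ℝ) ≤ Real.log ((X + 1 : ℕ) : ℝ) := Real.log_natCast_nonneg _
    linarith
  have hM : 4 * L * ((L : ℝ) * (1 + Real.log ((X + 1 : ℕ) : ℝ)) *
      ((Nat.log 2 (X + 1) + 1) ^ (2 * (2 * p * k)) * p ^ (2 * p * k) : ℕ) *
      (C3 p L ^ R : ℕ)) ≤ E := by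
    refine le_trans ?_ hE1
    have h1 : (4 : ℝ) ≤ Real.exp 2 := by
      have e1 : Real.exp 2 = Real.exp 1 ^ 2 := by rw [← Real.exp_nat_mul]; norm_num
      rw [e1]
      have : (2.7 : ℝ) ≤ Real.exp 1 := by linarith [Real.exp_one_gt_d9]
      calc (4 : ℝ) ≤ 2.7 ^ 2 := by norm_num
        _ ≤ _ := pow_le_pow_left₀ (by norm_num) this 2
    have h2 : (L : ℝ) ≤ Real.exp (l + 3) := by linarith
    have h3 : 1 + Real.log ((X + 1 : ℕ) : ℝ) ≤ Real.exp l := by
      refine le_trans ?_ hlp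
      refine le_trans ?_ hF1
      linarith
    have h4 : ((((Nat.log 2 (X + 1) + 1) ^ (2 * (2 * p * k)) * p ^ (2 * p * k) : ℕ)) : ℝ) ≤
        Real.exp (44 * l ^ 2) * Real.exp (22 * p ^ 2 * l) := by
      rw [Nat.cast_mul, Nat.cast_pow, Nat.cast_pow]
      refine mul_le_mul ?_ ?_ (by positivity) (by positivity)
      · calc ((Nat.log 2 (X + 1) + 1 : ℕ) : ℝ) ^ (2 * (2 * p * k)) ≤
              Real.exp (l / p) ^ (2 * (2 * p * k)) := pow_le_pow_left₀ (by positivity) hX'3 _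
          _ = Real.exp (4 * k * l) := by
              rw [← Real.exp_nat_mul]
              congr 1
              push_cast
              field_simp
              ring
          _ ≤ _ := by
              apply Real.exp_le_exp.mpr
              nlinarith
      · have h5 : (p : ℝ) ≤ Real.exp p := by linarith [Real.add_one_le_exp (p : ℝ)]
        calc (p : ℝ) ^ (2 * p * k) ≤ Real.exp p ^ (2 * p * k) :=
              pow_le_pow_left₀ (by positivity) h5 _
          _ = Real.exp (2 * p ^ 2 * k) := by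
              rw [← Real.exp_nat_mul]
              congr 1
              push_cast
              ring
          _ ≤ Real.exp (22 * p ^ 2 * l) := by
              apply Real.exp_le_exp.mpr
              have : (0 : ℝ) < (p : ℝ) ^ 2 := by positivity
              nlinarith
    calc _ ≤ Real.exp 2 * Real.exp (l + 3) * (Real.exp (l + 3) * Real.exp l *
          (Real.exp (44 * l ^ 2) * Real.exp (22 * p ^ 2 * l)) * Real.exp (9 * p ^ 2 * l ^ 2)) := by
          gcongr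
      _ = Real.exp (2 + (l + 3) + (l + 3) + l + 44 * l ^ 2 + 22 * p ^ 2 * l +
            9 * p ^ 2 * l ^ 2) := by
          simp only [Real.exp_add]
          ring
      _ ≤ _ := by
          apply Real.exp_le_exp.mpr
          have q1 : (4 : ℝ) ≤ (p : ℝ) ^ 2 := by nlinarith
          have q2 : 4 * l ^ 2 ≤ (p : ℝ) ^ 2 * l ^ 2 := mul_le_mul_of_nonneg_right q1 (sq_nonneg l)
          have q3 : 22 * ((p : ℝ) ^ 2 * l) ≤ (p : ℝ) ^ 2 * l ^ 2 := by
            have : 22 * l ≤ l ^ 2 := by nlinarith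
            nlinarith
          have q4 : 3 * l + 8 ≤ l ^ 2 := by nlinarith
          nlinarith
  -- the size of `Smax`
  have hB : ((2 * L * E : ℕ) : ℝ) ≤ Real.exp (23 * p ^ 2 * l ^ 2) := by
    push_cast
    have h1 : (2 : ℝ) ≤ Real.exp 1 := by linarith [Real.exp_one_gt_d9]
    calc (2 : ℝ) * L * E ≤ Real.exp 1 * Real.exp (l + 3) * Real.exp (22 * p ^ 2 * l ^ 2 + 1) := by
          gcongr
          linarith
      _ = Real.exp (1 + (l + 3) + (22 * p ^ 2 * l ^ 2 + 1)) := by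
          rw [← Real.exp_add, ← Real.exp_add]
      _ ≤ _ := by
          apply Real.exp_le_exp.mpr
          have q1 : (4 : ℝ) ≤ (p : ℝ) ^ 2 := by nlinarith
          have q2 : 4 * l ^ 2 ≤ (p : ℝ) ^ 2 * l ^ 2 := mul_le_mul_of_nonneg_right q1 (sq_nonneg l)
          nlinarith
  have hee : ((ee R 2 R : ℕ) : ℝ) ≤ 37 * l ^ 2 := by
    rw [ee_eq]
    push_cast
    have h1 : (R : ℝ) + 2 ≤ 3 * l := by linarith
    have h2 : (R : ℝ) * (R + 2) ≤ (3 * l) * (3 * l) := mul_le_mul hR3 h1 (by positivity)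
      (by positivity)
    nlinarith
  have hSm : (Smax : ℝ) ≤ Real.exp (851 * p ^ 2 * l ^ 4) := by
    rw [hSdef, Nat.cast_pow]
    calc ((2 * L * E : ℕ) : ℝ) ^ ee R 2 R ≤ Real.exp (23 * p ^ 2 * l ^ 2) ^ ee R 2 R :=
          pow_le_pow_left₀ (by positivity) hB _
      _ = Real.exp (ee R 2 R * (23 * p ^ 2 * l ^ 2)) := by rw [← Real.exp_nat_mul]
      _ ≤ Real.exp ((37 * l ^ 2) * (23 * p ^ 2 * l ^ 2)) := by
          apply Real.exp_le_exp.mpr
          gcongr
      _ = _ := by ring_nf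
  have hNm : ((Nmax p L Smax : ℕ) : ℝ) ≤ Real.exp (1703 * p ^ 3 * l ^ 4) := by
    have hl4 : l ≤ l ^ 4 := by
      have : (1 : ℝ) ≤ l ^ 3 := one_le_pow₀ (by linarith)
      calc l = l * 1 := (mul_one l).symm
        _ ≤ l * l ^ 3 := by gcongr
        _ = l ^ 4 := by ring
    have h1 : (1 + (L : ℝ)) ^ p ≤ Real.exp (851 * p ^ 2 * l ^ 4) := by
      calc (1 + (L : ℝ)) ^ p ≤ Real.exp (l + 3) ^ p := pow_le_pow_left₀ (by positivity) hL3 p
        _ = Real.exp (p * (l + 3)) := by rw [← Real.exp_nat_mul]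
        _ ≤ _ := by
            apply Real.exp_le_exp.mpr
            have q1 : (p : ℝ) ≤ (p : ℝ) ^ 2 := by nlinarith
            have q2 : l + 3 ≤ 851 * l ^ 4 := by linarith
            calc (p : ℝ) * (l + 3) ≤ (p : ℝ) ^ 2 * (851 * l ^ 4) :=
                  mul_le_mul q1 q2 (by positivity) (by positivity)
              _ = _ := by ring
    have h2 : (1 : ℝ) ≤ Real.exp (851 * p ^ 2 * l ^ 4) := Real.one_le_exp (by positivity)
    have h3 : (1 + (L : ℝ)) ^ p + (1 + (Smax : ℝ)) ≤ Real.exp (2 + 851 * p ^ 2 * l ^ 4) := by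
      have h4 : (3 : ℝ) ≤ Real.exp 2 := by
        have := Real.add_one_le_exp (2 : ℝ)
        linarith
      rw [Real.exp_add]
      nlinarith
    unfold Nmax
    push_cast
    calc ((2 * p).factorial : ℝ) * ((1 + (L : ℝ)) ^ p + (1 + (Smax : ℝ))) ^ (2 * p)
        ≤ Real.exp l * Real.exp (2 + 851 * p ^ 2 * l ^ 4) ^ (2 * p) := by gcongr
      _ = Real.exp (l + (2 * p) * (2 + 851 * p ^ 2 * l ^ 4)) := by
          rw [← Real.exp_nat_mul, ← Real.exp_add]
          push_cast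
          ring_nf
      _ ≤ _ := by
          apply Real.exp_le_exp.mpr
          have q1 : (8 : ℝ) ≤ (p : ℝ) ^ 3 := by
            calc (8 : ℝ) = 2 ^ 3 := by norm_num
              _ ≤ _ := pow_le_pow_left₀ (by norm_num) hp2 3
          have q2 : (p : ℝ) ≤ (p : ℝ) ^ 3 := by nlinarith [sq_nonneg ((p : ℝ))]
          have q3 : 22 ≤ l ^ 4 := hl22.trans hl4
          have q4 : 4 * (p : ℝ) + l ≤ (p : ℝ) ^ 3 * l ^ 4 := by nlinarith
          nlinarith
  have hNR : Nmax p L Smax ^ R ≤ X := by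
    have h1 : ((Nmax p L Smax ^ R : ℕ) : ℝ) ≤ X := by
      rw [hXexp, Nat.cast_pow]
      calc ((Nmax p L Smax : ℕ) : ℝ) ^ R ≤ Real.exp (1703 * p ^ 3 * l ^ 4) ^ R :=
            pow_le_pow_left₀ (by positivity) hNm R
        _ = Real.exp (R * (1703 * p ^ 3 * l ^ 4)) := by rw [← Real.exp_nat_mul]
        _ ≤ Real.exp ((3 * l) * (1703 * p ^ 3 * l ^ 4)) := by
            apply Real.exp_le_exp.mpr
            gcongr
        _ ≤ _ := by
            apply Real.exp_le_exp.mpr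
            have q1 : (1 : ℝ) ≤ (p : ℝ) ^ 2 := by nlinarith
            have q2 : (0 : ℝ) ≤ (p : ℝ) ^ 3 * l ^ 5 := by positivity
            have q3 : (p : ℝ) ^ 3 * l ^ 5 * 1 ≤ (p : ℝ) ^ 3 * l ^ 5 * (p : ℝ) ^ 2 :=
              mul_le_mul_of_nonneg_left q1 q2
            have e1 : (6 * (p : ℝ) * l) ^ 5 = 7776 * ((p : ℝ) ^ 3 * l ^ 5 * (p : ℝ) ^ 2) := by ring
            have e2 : (3 * l) * (1703 * (p : ℝ) ^ 3 * l ^ 4) = 5109 * ((p : ℝ) ^ 3 * l ^ 5) := by
              ring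
            rw [e1, e2]
            linarith
    exact_mod_cast h1
  have hRpos : 0 < R := by rw [hRdef]; omega
  have hNX : Nmax p L Smax ≤ X := (Nat.le_self_pow hRpos.ne' _).trans hNR
  have hSN : Smax ≤ Nmax p L Smax := by
    unfold Nmax
    calc Smax ≤ (1 + L) ^ p + (1 + Smax) := by omega
      _ ≤ ((1 + L) ^ p + (1 + Smax)) ^ (2 * p) := Nat.le_self_pow (by have := hp.pos; omega) _
      _ ≤ _ := Nat.le_mul_of_pos_left _ (Nat.factorial_pos _)
  have hSX : Smax * L ≤ X := by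
    have h1 : ((Smax * L : ℕ) : ℝ) ≤ X := by
      rw [hXexp]
      push_cast
      calc (Smax : ℝ) * L ≤ Real.exp (851 * p ^ 2 * l ^ 4) * Real.exp (l + 3) := by
            gcongr
            linarith
        _ = Real.exp (851 * p ^ 2 * l ^ 4 + (l + 3)) := by rw [← Real.exp_add]
        _ ≤ _ := by
            apply Real.exp_le_exp.mpr
            have e1 : (6 * (p : ℝ) * l) ^ 5 = 7776 * ((p : ℝ) ^ 2 * l ^ 4 * ((p : ℝ) ^ 3 * l)) := by
              ring
            have q1 : (1 : ℝ) ≤ (p : ℝ) ^ 3 * l := by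
              have : (1 : ℝ) ≤ (p : ℝ) ^ 3 := one_le_pow₀ (by linarith)
              nlinarith
            have q2 : (0 : ℝ) ≤ (p : ℝ) ^ 2 * l ^ 4 := by positivity
            have q3 := mul_le_mul_of_nonneg_left q1 q2
            have q4 : l ≤ (p : ℝ) ^ 2 * l ^ 4 := by
              have h5 : (1 : ℝ) ≤ l ^ 3 := one_le_pow₀ (by linarith)
              have h6 : (1 : ℝ) ≤ (p : ℝ) ^ 2 := one_le_pow₀ (by linarith)
              have h7 : (1 : ℝ) ≤ (p : ℝ) ^ 2 * l ^ 3 := by nlinarith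
              nlinarith
            rw [e1]
            linarith
    exact_mod_cast h1
  have hSpos : 0 < Smax := by
    rw [hSdef]
    exact Nat.pos_of_ne_zero (pow_ne_zero _ (by positivity))
  have hLX : L + 1 ≤ X + 1 := by
    have : L ≤ Smax * L := Nat.le_mul_of_pos_left _ hSpos
    omega
  -- the harmonic sum
  have hH : ∑ t ∈ range Smax, 1 / ((t : ℝ) + 1) ≤ 1 + Real.log ((X + 1 : ℕ) : ℝ) := by
    have h1 := harmonic_le_one_add_log Smax
    have h2 : ((harmonic Smax : ℚ) : ℝ) = ∑ t ∈ range Smax, 1 / ((t : ℝ) + 1) := by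
      unfold harmonic
      push_cast
      exact sum_congr rfl fun t _ => by rw [one_div]
    rw [h2] at h1
    refine h1.trans ?_
    have h3 : (Smax : ℝ) ≤ ((X + 1 : ℕ) : ℝ) := by exact_mod_cast (by omega : Smax ≤ X + 1)
    have h4 : Real.log Smax ≤ Real.log ((X + 1 : ℕ) : ℝ) :=
      Real.log_le_log (by exact_mod_cast hSpos) h3
    linarith
  refine ⟨L, hL1, hLpos, by omega, by omega, fun Z hZ => ?_⟩
  exact card_short hp (X + 1) L R k E Smax (1 + Real.log ((X + 1 : ℕ) : ℝ)) hLpos hEpos hLX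
    hRL hSdef.ge (hNR.trans (Nat.le_succ X)) (hNX.trans (Nat.le_succ X))
    (hSX.trans (Nat.le_succ X)) hH hM hkL Z (fun n hn => by
      obtain ⟨h1, h2, h3⟩ := hZ n hn
      exact ⟨h1, by omega, h3⟩)

end Pool.Agent.L5helper22.GZ
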