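import Pool.Agent.L5helper22.GZ.Abs

/-!
# Without chains of large terms the sums grow slowly
-/

set_option autoImplicit false

open Finset

namespace Pool.Agent.L5helper22.GZ

section comb

variable (g s : ℕ → ℕ) (L Smax B3 G3 E R K : ℕ)

/-- a chain of `d` indices below `a` -/
structure Ctx (d a Q : ℕ) (ρ : ℝ) : Prop where
  ext : ∀ r Y, Ext g s L Smax B3 r a Q Y → Ext g s L Smax B3 (d + r) 0 1 (Y * ρ)
  gcd : ∀ i, a ≤ i → i < L → s i < Smax → Nat.gcd Q (g i) ≤ G3 ^ d
  low : (1 / (2 * (L : ℝ))) ^ d ≤ ρ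

variable {g s L Smax B3 G3 E R K}

lemma ctx_step (hL : 0 < L) (hg : ∀ i, 0 < g i) (hB3 : G3 ^ R ≤ B3) (hG3 : 0 < G3)
    (hgcd : ∀ i j, i < j → j < L → s j < Smax → Nat.gcd (g i) (g j) ≤ G3)
    {d a Q : ℕ} {ρ : ℝ} (hd : d < R) (h : Ctx g s L Smax B3 G3 d a Q ρ) {i : ℕ} (ha : a ≤ i)
    (hi : i < L) (hsi : s i < Smax) :
    (∀ r Y, Ext g s L Smax B3 r (i + 1) (Nat.lcm Q (g i)) Y →
      Ext g s L Smax B3 (d + 1 + r) 0 1 (Y * (ρ * (g i / (((s i - s a : ℕ) : ℝ) + 1))))) ∧
    (∀ j, i + 1 ≤ j → j < L → s j < Smax → Nat.gcd (Nat.lcm Q (g i)) (g j) ≤ G3 ^ (d + 1)) := by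
  constructor
  · intro r Y hY
    have h0 : (0 : ℝ) < g i := by exact_mod_cast hg i
    have h1 : (0 : ℝ) < ((s i - s a : ℕ) : ℝ) + 1 := by positivity
    have h2 : Ext g s L Smax B3 (r + 1) a Q (Y * (g i / (((s i - s a : ℕ) : ℝ) + 1))) := by
      refine ⟨i, ha, hi, hsi, ?_, ?_⟩
      · exact (h.gcd i ha hi hsi).trans ((Nat.pow_le_pow_right hG3 hd.le).trans hB3)
      · have : Y * (g i / (((s i - s a : ℕ) : ℝ) + 1)) * ((((s i - s a : ℕ) : ℝ) + 1) / g i) = Y := by
          field_simp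
        rw [this]
        exact hY
    have h3 := h.ext _ _ h2
    have e1 : d + (r + 1) = d + 1 + r := by ring
    rw [e1] at h3
    have e2 : Y * (g i / (((s i - s a : ℕ) : ℝ) + 1)) * ρ =
        Y * (ρ * (g i / (((s i - s a : ℕ) : ℝ) + 1))) := by ring
    rwa [e2] at h3
  · intro j hj hjL hsj
    have h1 : Nat.gcd (Nat.lcm Q (g i)) (g j) ∣ Nat.gcd Q (g j) * Nat.gcd (g i) (g j) := by
      have h2 : Nat.lcm Q (g i) ∣ Q * g i := Nat.lcm_dvd_mul _ _
      have h3 := Nat.gcd_dvd_gcd_of_dvd_left (g j) h2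
      refine h3.trans ?_
      rw [Nat.gcd_comm, Nat.gcd_comm Q, Nat.gcd_comm (g i)]
      exact Nat.gcd_mul_right_dvd_mul_gcd (g j) Q (g i)
    have hpos : 0 < Nat.gcd Q (g j) * Nat.gcd (g i) (g j) :=
      Nat.mul_pos (Nat.gcd_pos_of_pos_right _ (hg j)) (Nat.gcd_pos_of_pos_right _ (hg j))
    calc Nat.gcd (Nat.lcm Q (g i)) (g j) ≤ Nat.gcd Q (g j) * Nat.gcd (g i) (g j) :=
          Nat.le_of_dvd hpos h1
      _ ≤ G3 ^ d * G3 := Nat.mul_le_mul (h.gcd j (by omega) hjL hsj) (hgcd i j (by omega) hjL hsj)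
      _ = G3 ^ (d + 1) := by ring

/-- the growth of the sums after a chain -/
lemma growth (hL : 0 < L) (hE : 0 < E) (hg : ∀ i, 0 < g i) (hB3 : G3 ^ R ≤ B3) (hG3 : 0 < G3)
    (hgcd : ∀ i j, i < j → j < L → s j < Smax → Nat.gcd (g i) (g j) ≤ G3)
    (hno : ∀ r, 1 ≤ r → r ≤ R → ¬ Ext g s L Smax B3 r 0 1 ((E : ℝ) ^ r))
    {d a Q : ℕ} {ρ : ℝ} (hd : d < R) (h : Ctx g s L Smax B3 G3 d a Q ρ) {i : ℕ} (ha : a ≤ i)
    (hi : i < L) (hsi : s i < Smax) :
    2 * L * g i ≤ (2 * L * E) ^ (d + 1) * (s i - s a + 1) := by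
  obtain ⟨h1, -⟩ := ctx_step hL hg hB3 hG3 hgcd hd h ha hi hsi
  have hLr : (0 : ℝ) < L := by exact_mod_cast hL
  have hEr : (0 : ℝ) < E := by exact_mod_cast hE
  have h0 : (0 : ℝ) < g i := by exact_mod_cast hg i
  have hσ : (0 : ℝ) < ((s i - s a : ℕ) : ℝ) + 1 := by positivity
  have hρ : 0 < ρ := lt_of_lt_of_le (by positivity) h.low
  set ρ' : ℝ := ρ * (g i / (((s i - s a : ℕ) : ℝ) + 1)) with hρ'
  have hρ'0 : 0 < ρ' := by positivity
  have h2 : ρ' < (E : ℝ) ^ (d + 1) := by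
    by_contra hcon
    push Not at hcon
    apply hno (d + 1) (by omega) (by omega)
    have h3 := h1 0 ((E : ℝ) ^ (d + 1) / ρ') (by
      show _ ≤ (1 : ℝ)
      rw [div_le_one hρ'0]
      exact hcon)
    rw [Nat.add_zero, div_mul_cancel₀ _ hρ'0.ne'] at h3
    exact h3
  have h3 : (1 / (2 * (L : ℝ))) ^ d * (g i / (((s i - s a : ℕ) : ℝ) + 1)) < (E : ℝ) ^ (d + 1) :=
    lt_of_le_of_lt (mul_le_mul_of_nonneg_right h.low (by positivity)) h2
  rw [one_div, inv_pow, ← div_eq_inv_mul, div_div, div_lt_iff₀ (by positivity)] at h3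
  have h4 : (2 * (L : ℝ)) * g i ≤ (2 * L * E) ^ (d + 1) * (((s i - s a : ℕ) : ℝ) + 1) := by
    have e1 : (2 * (L : ℝ) * E) ^ (d + 1) * (((s i - s a : ℕ) : ℝ) + 1) =
        2 * L * (E ^ (d + 1) * ((((s i - s a : ℕ) : ℝ) + 1) * (2 * (L : ℝ)) ^ d)) := by
      rw [mul_pow (2 * (L : ℝ)) E, pow_succ (2 * (L : ℝ))]
      ring
    rw [e1]
    exact mul_le_mul_of_nonneg_left h3.le (by positivity)
  exact_mod_cast h4

/-- a big term at every scale -/
lemma jump (hs : ∀ i, s (i + 1) = s i + g i) (hL : 0 < L) (hE : 0 < E)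
    {d a b z : ℕ} (hab : a ≤ b) (hbL : b ≤ L) (hd : d < R)
    (hgrow : ∀ i, a ≤ i → i < b → 2 * L * g i ≤ (2 * L * E) ^ (d + 1) * (s i - s a + 1))
    (hb : (2 * L * E) ^ (z + R + 2) ≤ s b - s a + 1) :
    ∃ i, a ≤ i ∧ i < b ∧ (2 * L * E) ^ z ≤ s i - s a + 1 ∧
      s i - s a + 1 < (2 * L * E) ^ (z + R + 2) ∧ (2 * L * E) ^ (z + R + 2) ≤ 2 * L * g i := by
  classical
  set B := 2 * L * E with hB
  have hLE : 1 ≤ L * E := Nat.mul_pos hL hE
  have hB2 : 2 ≤ B := by
    have : B = 2 * (L * E) := by rw [hB]; ring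
    omega
  have hB1 : 1 ≤ B := by omega
  have mono : Monotone s := monotone_nat_of_le_succ fun i => by rw [hs]; omega
  -- the first index at which the block sum reaches `Z`
  have first : ∀ Z, Z ≤ s b - s a + 1 → ∃ t, a ≤ t ∧ t ≤ b ∧ Z ≤ s t - s a + 1 ∧
      ∀ t', a ≤ t' → t' < t → s t' - s a + 1 < Z := by
    intro Z hZ
    have hex : ∃ t, a ≤ t ∧ Z ≤ s t - s a + 1 := ⟨b, hab, hZ⟩
    refine ⟨Nat.find hex, (Nat.find_spec hex).1, Nat.find_min' hex ⟨hab, hZ⟩,
      (Nat.find_spec hex).2, fun t' h1 h2 => ?_⟩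
    have := Nat.find_min hex h2
    push Not at this
    exact this h1
  have hzb : B ^ z ≤ s b - s a + 1 := (Nat.pow_le_pow_right hB1 (by omega)).trans hb
  obtain ⟨t, hat, htb, hzt, hmin⟩ := first _ hzb
  obtain ⟨t', hat', htb', hzt', hmin'⟩ := first _ hb
  have htt' : t ≤ t' := by
    by_contra hcon
    push Not at hcon
    have h1 := hmin t' hat' hcon
    have h2 : B ^ z ≤ B ^ (z + R + 2) := Nat.pow_le_pow_right hB1 (by omega)
    omega
  -- the block sum at `t`
  have hst : s t - s a + 1 ≤ B ^ (z + R) := by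
    rcases Nat.eq_or_lt_of_le hat with h | h
    · rw [← h, Nat.sub_self]
      exact Nat.one_le_pow _ _ hB1
    · have h1 := hmin (t - 1) (by omega) (by omega)
      have h2 := hgrow (t - 1) (by omega) (by omega)
      have h3 : s t = s (t - 1) + g (t - 1) := by
        have := hs (t - 1)
        rwa [show t - 1 + 1 = t by omega] at this
      have h4 : s a ≤ s (t - 1) := mono (by omega)
      -- `g ≤ B^(d+1)/2 * σ`
      have h5 : 2 * g (t - 1) ≤ B ^ (d + 1) * (s (t - 1) - s a + 1) := by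
        refine le_trans ?_ h2
        have : 2 * L * g (t - 1) = L * (2 * g (t - 1)) := by ring
        rw [this]
        exact Nat.le_mul_of_pos_left _ hL
      have h6 : 2 * (s (t - 1) - s a + 1) ≤ B ^ (d + 1) * (s (t - 1) - s a + 1) := by
        apply Nat.mul_le_mul_right
        calc 2 ≤ B := hB2
          _ = B ^ 1 := (pow_one B).symm
          _ ≤ B ^ (d + 1) := Nat.pow_le_pow_right hB1 (by omega)
      have h7 : s t - s a + 1 ≤ B ^ (d + 1) * (s (t - 1) - s a + 1) := by omega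
      calc s t - s a + 1 ≤ B ^ (d + 1) * (s (t - 1) - s a + 1) := h7
        _ ≤ B ^ (d + 1) * B ^ z := Nat.mul_le_mul_left _ h1.le
        _ = B ^ (d + 1 + z) := (pow_add _ _ _).symm
        _ ≤ B ^ (z + R) := Nat.pow_le_pow_right hB1 (by omega)
  by_contra hcon
  push Not at hcon
  have hsmall : ∀ i, t ≤ i → i < t' → 2 * L * g i < B ^ (z + R + 2) := by
    intro i h1 h2
    refine hcon i (by omega) (by omega) ?_ (hmin' i (by omega) h2)
    have := mono h1
    omega
  -- the sum from `t` to `t'`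
  have hsum : ∀ n, t + n ≤ t' → 2 * L * (s (t + n) - s t) ≤ n * B ^ (z + R + 2) := by
    intro n
    induction n with
    | zero => intro _; simp
    | succ n ih =>
      intro hn
      have h1 := ih (by omega)
      have h2 := hsmall (t + n) (by omega) (by omega)
      have h3 : s (t + (n + 1)) = s (t + n) + g (t + n) := hs (t + n)
      have h4 : s t ≤ s (t + n) := mono (by omega)
      have h5 : s (t + (n + 1)) - s t = (s (t + n) - s t) + g (t + n) := by omega
      rw [h5, Nat.mul_add, Nat.add_mul, Nat.one_mul]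
      omega
  have h1 := hsum (t' - t) (by omega)
  rw [show t + (t' - t) = t' by omega] at h1
  have h2 : (t' - t) * B ^ (z + R + 2) ≤ L * B ^ (z + R + 2) :=
    Nat.mul_le_mul_right _ (by omega)
  have h3 : L * (2 * (s t' - s t)) ≤ L * B ^ (z + R + 2) := by
    calc L * (2 * (s t' - s t)) = 2 * L * (s t' - s t) := by ring
      _ ≤ _ := h1.trans h2
  have h4 : 2 * (s t' - s t) ≤ B ^ (z + R + 2) := Nat.le_of_mul_le_mul_left h3 hL
  have h5 : s a ≤ s t := mono hat
  have h6 : s t ≤ s t' := mono htt'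
  have h7 : 4 * B ^ (z + R) ≤ B ^ (z + R + 2) := by
    rw [pow_add B (z + R) 2, mul_comm]
    exact Nat.mul_le_mul_left _ (by nlinarith)
  have h8 : 0 < B ^ (z + R) := Nat.pos_of_ne_zero (pow_ne_zero _ (by omega))
  omega

/-- the exponents of the scales -/
def ee (R K : ℕ) : ℕ → ℕ
  | 0 => 1
  | r + 1 => ee R K r + (K + 2) * (R + 2)

theorem slow (hs : ∀ i, s (i + 1) = s i + g i) (hL : 0 < L) (hE : 0 < E) (hg : ∀ i, 0 < g i)
    (hB3 : G3 ^ R ≤ B3) (hG3 : 0 < G3)
    (hgcd : ∀ i j, i < j → j < L → s j < Smax → Nat.gcd (g i) (g j) ≤ G3)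
    (hno : ∀ r, 1 ≤ r → r ≤ R → ¬ Ext g s L Smax B3 r 0 1 ((E : ℝ) ^ r)) :
    ∀ r d a Q : ℕ, ∀ ρ : ℝ, d + r ≤ R → Ctx g s L Smax B3 G3 d a Q ρ → ∀ b, a ≤ b → b ≤ L →
      (∀ i, i < b → s i < Smax) → (2 * L * E) ^ ee R K r ≤ s b - s a + 1 → K ^ r ≤ b - a := by
  intro r
  have hLE : 1 ≤ L * E := Nat.mul_pos hL hE
  have hB2 : 2 ≤ 2 * L * E := by
    have : 2 * L * E = 2 * (L * E) := by ring
    omega
  have mono : Monotone s := monotone_nat_of_le_succ fun i => by rw [hs]; omega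
  have hLr : (0 : ℝ) < L := by exact_mod_cast hL
  induction r with
  | zero =>
    intro d a Q ρ hd hctx b hab hbL hsm hb
    simp only [ee, pow_one, pow_zero] at hb ⊢
    by_contra hcon
    have : b = a := by omega
    subst this
    rw [Nat.sub_self] at hb
    omega
  | succ r ih =>
    intro d a Q ρ hd hctx b hab hbL hsm hb
    have hgrow : ∀ i, a ≤ i → i < b → 2 * L * g i ≤ (2 * L * E) ^ (d + 1) * (s i - s a + 1) :=
      fun i h1 h2 => growth hL hE hg hB3 hG3 hgcd hno (by omega) hctx h1 (by omega) (hsm i h2)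
    set z : ℕ → ℕ := fun k => ee R K r + (k + 1) * (R + 2) with hz
    have hzs : ∀ k, z (k + 1) = z k + R + 2 := fun k => by simp only [hz]; ring
    -- the jumps
    have hj : ∀ k, k ≤ K → ∃ i, a ≤ i ∧ i < b ∧ (2 * L * E) ^ z k ≤ s i - s a + 1 ∧
        s i - s a + 1 < (2 * L * E) ^ z (k + 1) ∧ (2 * L * E) ^ z (k + 1) ≤ 2 * L * g i := by
      intro k hk
      rw [hzs]
      refine jump (R := R) hs hL hE hab hbL (show d < R by omega) hgrow (le_trans ?_ hb)
      apply Nat.pow_le_pow_right (by omega)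
      have e1 : z k + R + 2 = ee R K r + (k + 2) * (R + 2) := by simp only [hz]; ring
      rw [e1]
      simp only [ee]
      exact Nat.add_le_add_left (Nat.mul_le_mul_right _ (by omega)) _
    choose! ι hι1 hι2 hι3 hι4 hι5 using hj
    -- consecutive jumps
    have hgap : ∀ k, k < K → ι k + K ^ r ≤ ι (k + 1) := by
      intro k hk
      have hlt : ι k < ι (k + 1) := by
        by_contra hcon
        push Not at hcon
        have h1 := mono hcon
        have h2 := hι4 k (by omega)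
        have h3 := hι3 (k + 1) (by omega)
        omega
      rcases Nat.eq_zero_or_pos r with hr | hr
      · subst hr
        simp only [pow_zero]
        omega
      · have hiL : ι k < L := lt_of_lt_of_le (hι2 k (by omega)) hbL
        have hsi : s (ι k) < Smax := hsm _ (hι2 k (by omega))
        obtain ⟨c1, c2⟩ := ctx_step hL hg hB3 hG3 hgcd (show d < R by omega) hctx
          (hι1 k (by omega)) hiL hsi
        have hctx' : Ctx g s L Smax B3 G3 (d + 1) (ι k + 1) (Nat.lcm Q (g (ι k)))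
            (ρ * (g (ι k) / (((s (ι k) - s a : ℕ) : ℝ) + 1))) := by
          refine ⟨c1, c2, ?_⟩
          have h1 : s (ι k) - s a + 1 ≤ 2 * L * g (ι k) :=
            (hι4 k (by omega)).le.trans (hι5 k (by omega))
          have h2 : ((s (ι k) - s a : ℕ) : ℝ) + 1 ≤ 2 * L * g (ι k) := by exact_mod_cast h1
          have h3 : 1 / (2 * (L : ℝ)) ≤ g (ι k) / (((s (ι k) - s a : ℕ) : ℝ) + 1) := by
            rw [div_le_div_iff₀ (by positivity) (by positivity)]
            linarith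
          rw [pow_succ]
          exact mul_le_mul hctx.low h3 (by positivity)
            (le_trans (by positivity) hctx.low)
        have hi'b : ι (k + 1) < b := hι2 (k + 1) (by omega)
        have h4 := growth hL hE hg hB3 hG3 hgcd hno (show d + 1 < R by omega) hctx'
          (show ι k + 1 ≤ ι (k + 1) by omega) (by omega) (hsm _ hi'b)
        have h5 := hι5 (k + 1) (by omega)
        have h6 : (2 * L * E) ^ z (k + 1 + 1) ≤
            (2 * L * E) ^ (d + 1 + 1) * (s (ι (k + 1)) - s (ι k + 1) + 1) := h5.trans h4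
        have h7 : (2 * L * E) ^ ee R K r ≤ s (ι (k + 1)) - s (ι k + 1) + 1 := by
          have e1 : d + 1 + 1 + ee R K r ≤ z (k + 1 + 1) := by
            simp only [hz]
            have : 1 * (R + 2) ≤ (k + 1 + 1 + 1) * (R + 2) := Nat.mul_le_mul_right _ (by omega)
            omega
          have e2 : (2 * L * E) ^ (d + 1 + 1) * (2 * L * E) ^ ee R K r ≤
              (2 * L * E) ^ (d + 1 + 1) * (s (ι (k + 1)) - s (ι k + 1) + 1) := by
            rw [← pow_add]
            exact (Nat.pow_le_pow_right (by omega) e1).trans h6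
          exact Nat.le_of_mul_le_mul_left e2 (Nat.pos_of_ne_zero (pow_ne_zero _ (by omega)))
        have h8 := ih (d + 1) (ι k + 1) _ _ (by omega) hctx' (ι (k + 1)) (by omega) (by omega)
          (fun i hi => hsm i (by omega)) h7
        omega
    have htot : ∀ k, k ≤ K → ι 0 + k * K ^ r ≤ ι k := by
      intro k
      induction k with
      | zero => intro _; simp
      | succ k ihk =>
        intro hk
        have h1 := ihk (by omega)
        have h2 := hgap k (by omega)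
        rw [Nat.add_mul, Nat.one_mul]
        omega
    have h1 := htot K le_rfl
    have h2 := hι2 K le_rfl
    have h3 := hι1 0 (by omega)
    rw [pow_succ, mul_comm]
    omega

end comb

end Pool.Agent.L5helper22.GZ
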