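import Pool.Agent.L5helper22.GZ.Roots

/-!
# Divisors with few prime factors, and integers with many prime factors
-/

set_option autoImplicit false

open Finset

namespace Pool.Agent.L5helper22.GZ

/-- the divisors of `N` with at most `w` prime factors -/
def few (w N : ℕ) : Finset ℕ := N.divisors.filter fun u => u.primeFactors.card ≤ w

lemma two_pow_omega_le {N : ℕ} (hN : 0 < N) : 2 ^ N.primeFactors.card ≤ N := by
  calc 2 ^ N.primeFactors.card ≤ ∏ p ∈ N.primeFactors, p :=
        Finset.pow_card_le_prod _ _ _ fun p hp => (Nat.prime_of_mem_primeFactors hp).two_le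
    _ ≤ N := Nat.le_of_dvd hN (Nat.prod_primeFactors_dvd N)

lemma card_few_le {N X : ℕ} (hN : 0 < N) (hNX : N ≤ X) :
    ∀ w, (few w N).card ≤ (Nat.log 2 X + 1) ^ (2 * w) := by
  have hω : N.primeFactors.card ≤ Nat.log 2 X :=
    (Nat.le_log_of_pow_le (by norm_num) ((two_pow_omega_le hN).trans hNX))
  intro w
  induction w with
  | zero =>
    rw [Nat.mul_zero, pow_zero]
    have : few 0 N ⊆ {1} := by
      intro u hu
      rw [few, mem_filter, Nat.mem_divisors] at hu
      rw [mem_singleton]
      obtain ⟨⟨h1, h2⟩, h3⟩ := hu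
      have h4 : u.primeFactors = ∅ := card_eq_zero.mp (by omega)
      rw [Nat.primeFactors_eq_empty] at h4
      rcases h4 with h4 | h4
      · subst h4
        exact absurd (zero_dvd_iff.mp h1) h2
      · exact h4
    calc (few 0 N).card ≤ ({1} : Finset ℕ).card := card_le_card this
      _ = 1 := card_singleton _
  | succ w ih =>
    set l := Nat.log 2 X with hl
    set PP : Finset ℕ := insert 1 ((N.primeFactors ×ˢ range (l + 1)).image fun x => x.1 ^ x.2)
      with hPP
    have hPPc : PP.card ≤ (l + 1) ^ 2 := by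
      calc PP.card ≤ ((N.primeFactors ×ˢ range (l + 1)).image fun x => x.1 ^ x.2).card + 1 :=
            card_insert_le _ _
        _ ≤ (N.primeFactors ×ˢ range (l + 1)).card + 1 := Nat.add_le_add_right card_image_le _
        _ = N.primeFactors.card * (l + 1) + 1 := by rw [card_product, card_range]
        _ ≤ l * (l + 1) + 1 := Nat.add_le_add_right (Nat.mul_le_mul_right _ hω) _
        _ ≤ (l + 1) ^ 2 := by nlinarith
    have hsub : few (w + 1) N ⊆ (PP ×ˢ few w N).image fun x => x.1 * x.2 := by
      intro u hu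
      rw [few, mem_filter, Nat.mem_divisors] at hu
      obtain ⟨⟨h1, h2⟩, h3⟩ := hu
      have hu0 : u ≠ 0 := by
        rintro rfl
        exact h2 (zero_dvd_iff.mp h1)
      rw [mem_image]
      by_cases hu1 : u = 1
      · refine ⟨(1, 1), ?_, by simp [hu1]⟩
        rw [mem_product]
        refine ⟨mem_insert_self _ _, ?_⟩
        rw [few, mem_filter, Nat.mem_divisors]
        exact ⟨⟨one_dvd _, h2⟩, by simp⟩
      · have hp : (Nat.minFac u).Prime := Nat.minFac_prime hu1
        set q := Nat.minFac u with hq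
        refine ⟨(q ^ u.factorization q, u / q ^ u.factorization q), ?_, ?_⟩
        · rw [mem_product]
          constructor
          · refine mem_insert_of_mem (mem_image.mpr ⟨(q, u.factorization q), ?_, rfl⟩)
            rw [mem_product, mem_range]
            refine ⟨?_, ?_⟩
            · rw [Nat.mem_primeFactors]
              exact ⟨hp, (Nat.minFac_dvd u).trans h1, h2⟩
            · have h4 : 2 ^ u.factorization q ≤ X := by
                calc 2 ^ u.factorization q ≤ q ^ u.factorization q :=
                      Nat.pow_le_pow_left hp.two_le _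
                  _ ≤ u := Nat.le_of_dvd (Nat.pos_of_ne_zero hu0) (Nat.ordProj_dvd u q)
                  _ ≤ N := Nat.le_of_dvd hN h1
                  _ ≤ X := hNX
              exact Nat.lt_succ_of_le (Nat.le_log_of_pow_le (by norm_num) h4)
          · rw [few, mem_filter, Nat.mem_divisors]
            refine ⟨⟨(Nat.ordCompl_dvd u q).trans h1, h2⟩, ?_⟩
            have h4 : (u / q ^ u.factorization q).primeFactors ⊆ u.primeFactors.erase q := by
              intro r hr
              rw [mem_erase]
              refine ⟨?_, Nat.primeFactors_mono (Nat.ordCompl_dvd u q) hu0 hr⟩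
              rintro rfl
              exact Nat.not_dvd_ordCompl hp hu0 (Nat.dvd_of_mem_primeFactors hr)
            have h5 := card_le_card h4
            rw [card_erase_of_mem (by
              rw [Nat.mem_primeFactors]
              exact ⟨hp, Nat.minFac_dvd u, hu0⟩)] at h5
            show (u / q ^ u.factorization q).primeFactors.card ≤ w
            omega
        · exact Nat.ordProj_mul_ordCompl_eq_self u q
    calc (few (w + 1) N).card ≤ ((PP ×ˢ few w N).image fun x => x.1 * x.2).card := card_le_card hsub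
      _ ≤ (PP ×ˢ few w N).card := card_image_le
      _ = PP.card * (few w N).card := card_product _ _
      _ ≤ (l + 1) ^ 2 * (l + 1) ^ (2 * w) := Nat.mul_le_mul hPPc ih
      _ = (l + 1) ^ (2 * (w + 1)) := by rw [← pow_add]; congr 1; ring

/-- `(k + 1) ^ ω(d) ≤ ∑_{e ∣ d} k ^ ω(e)` -/
lemma succ_pow_omega_le {d : ℕ} (hd : d ≠ 0) (k : ℕ) :
    ((k : ℝ) + 1) ^ d.primeFactors.card ≤ ∑ e ∈ d.divisors, (k : ℝ) ^ e.primeFactors.card := by
  have h1 : ((k : ℝ) + 1) ^ d.primeFactors.card =
      ∑ T ∈ d.primeFactors.powerset, (k : ℝ) ^ T.card := by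
    have := Finset.prod_add (fun _ : ℕ => (k : ℝ)) (fun _ => (1 : ℝ)) d.primeFactors
    simp only [prod_const, one_pow, mul_one] at this
    exact this
  rw [h1]
  have hT : ∀ T ∈ d.primeFactors.powerset, (∏ p ∈ T, p).primeFactors = T := by
    intro T hT
    rw [mem_powerset] at hT
    exact Nat.primeFactors_prod fun p hp => Nat.prime_of_mem_primeFactors (hT hp)
  calc ∑ T ∈ d.primeFactors.powerset, (k : ℝ) ^ T.card
      = ∑ T ∈ d.primeFactors.powerset, (k : ℝ) ^ (∏ p ∈ T, p).primeFactors.card :=
        sum_congr rfl fun T h => by rw [hT T h]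
    _ = ∑ e ∈ d.primeFactors.powerset.image fun T => ∏ p ∈ T, p,
          (k : ℝ) ^ e.primeFactors.card := by
        rw [sum_image]
        intro T h T' h' hh
        rw [← hT T h, ← hT T' h']
        simp only at hh
        rw [hh]
    _ ≤ ∑ e ∈ d.divisors, (k : ℝ) ^ e.primeFactors.card := by
        apply sum_le_sum_of_subset_of_nonneg
        · intro e he
          obtain ⟨T, h, rfl⟩ := mem_image.mp he
          rw [mem_powerset] at h
          rw [Nat.mem_divisors]
          exact ⟨(prod_dvd_prod_of_subset _ _ _ h).trans (Nat.prod_primeFactors_dvd d), hd⟩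
        · intro e _ _
          positivity

lemma sum_omega_le (D : ℕ) : ∀ k : ℕ,
    ∑ e ∈ Icc 1 D, (k : ℝ) ^ e.primeFactors.card / e ≤ (∑ e ∈ Icc 1 D, 1 / (e : ℝ)) ^ k := by
  intro k
  induction k with
  | zero =>
    rw [pow_zero]
    rcases Nat.eq_zero_or_pos D with h | h
    · subst h; simp
    · have : ∀ e ∈ Icc 1 D, e ≠ 1 → ((0 : ℕ) : ℝ) ^ e.primeFactors.card / e = 0 := by
        intro e he hne
        rw [mem_Icc] at he
        have h1 : e.primeFactors.card ≠ 0 := by
          rw [Ne, card_eq_zero, Nat.primeFactors_eq_empty]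
          omega
        rw [Nat.cast_zero, zero_pow h1, zero_div]
      rw [sum_eq_single_of_mem 1 (mem_Icc.mpr ⟨le_rfl, h⟩) this]
      simp
  | succ k ih =>
    set H := ∑ e ∈ Icc 1 D, 1 / (e : ℝ) with hH
    calc ∑ d ∈ Icc 1 D, ((k + 1 : ℕ) : ℝ) ^ d.primeFactors.card / d
        ≤ ∑ d ∈ Icc 1 D, ∑ e ∈ d.divisors, (k : ℝ) ^ e.primeFactors.card / d := by
          refine sum_le_sum fun d hd => ?_
          rw [mem_Icc] at hd
          rw [← sum_div]
          push_cast
          exact div_le_div_of_nonneg_right (succ_pow_omega_le (by omega) k) (by positivity)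
      _ = ∑ d ∈ Icc 1 D, ∑ e ∈ Icc 1 D,
            if e ∣ d then (k : ℝ) ^ e.primeFactors.card / d else 0 := by
          refine sum_congr rfl fun d hd => ?_
          rw [mem_Icc] at hd
          rw [← sum_filter]
          refine sum_congr ?_ fun _ _ => rfl
          ext e
          rw [Nat.mem_divisors, mem_filter, mem_Icc]
          constructor
          · rintro ⟨h1, h2⟩
            exact ⟨⟨Nat.pos_of_dvd_of_pos h1 (by omega), (Nat.le_of_dvd (by omega) h1).trans hd.2⟩, h1⟩
          · rintro ⟨_, h1⟩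
            exact ⟨h1, by omega⟩
      _ = ∑ e ∈ Icc 1 D, ∑ d ∈ Icc 1 D,
            if e ∣ d then (k : ℝ) ^ e.primeFactors.card / d else 0 := sum_comm
      _ ≤ ∑ e ∈ Icc 1 D, (k : ℝ) ^ e.primeFactors.card / e * H := by
          refine sum_le_sum fun e he => ?_
          rw [mem_Icc] at he
          rw [← sum_filter, hH, mul_sum]
          calc ∑ d ∈ (Icc 1 D).filter (e ∣ ·), (k : ℝ) ^ e.primeFactors.card / d
              ≤ ∑ d ∈ (Icc 1 D).image (e * ·), (k : ℝ) ^ e.primeFactors.card / d := by
                apply sum_le_sum_of_subset_of_nonneg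
                · intro d hd
                  rw [mem_filter, mem_Icc] at hd
                  obtain ⟨⟨h1, h2⟩, f, rfl⟩ := hd
                  rw [mem_image]
                  refine ⟨f, ?_, rfl⟩
                  rw [mem_Icc]
                  constructor
                  · rcases Nat.eq_zero_or_pos f with h | h
                    · subst h; omega
                    · exact h
                  · exact le_trans (Nat.le_mul_of_pos_left f he.1) h2
                · intro d _ _
                  positivity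
            _ = ∑ f ∈ Icc 1 D, (k : ℝ) ^ e.primeFactors.card / ((e * f : ℕ) : ℝ) := by
                rw [sum_image]
                intro f _ f' _ hff
                exact Nat.eq_of_mul_eq_mul_left he.1 hff
            _ = _ := by
                refine sum_congr rfl fun f _ => ?_
                push_cast
                rw [div_mul_div_comm, mul_one]
      _ = (∑ e ∈ Icc 1 D, (k : ℝ) ^ e.primeFactors.card / e) * H := by rw [sum_mul]
      _ ≤ H ^ k * H := mul_le_mul_of_nonneg_right ih (sum_nonneg fun _ _ => by positivity)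
      _ = H ^ (k + 1) := (pow_succ _ _).symm

lemma sum_inv_le (D : ℕ) : ∑ e ∈ Icc 1 D, 1 / (e : ℝ) ≤ 1 + Real.log D := by
  have h := harmonic_le_one_add_log D
  rw [harmonic_eq_sum_Icc] at h
  push_cast at h
  simpa [one_div] using h

/-- a product of few of the prime factors is small -/
lemma exists_small (k : ℕ) : ∀ (n : ℕ) (P : Finset ℕ), (∀ r ∈ P, 1 ≤ r) → n * k ≤ P.card →
    n ≠ 0 → ∃ T ⊆ P, T.card = k ∧ (∏ r ∈ T, r) ^ n ≤ ∏ r ∈ P, r := by
  intro n
  induction n with
  | zero => intro P _ _ h; exact absurd rfl h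
  | succ n ih =>
    intro P hP hk _
    have hk1 : k ≤ P.card := le_trans (Nat.le_mul_of_pos_left k (Nat.succ_pos n)) hk
    obtain ⟨T1, hT1, hc1⟩ := exists_subset_card_eq hk1
    have hT1p : 1 ≤ ∏ r ∈ T1, r := Finset.one_le_prod' fun r hr => hP r (hT1 hr)
    rcases Nat.eq_zero_or_pos n with hn | hn
    · subst hn
      refine ⟨T1, hT1, hc1, ?_⟩
      rw [zero_add, pow_one]
      exact Finset.prod_le_prod_of_subset_of_one_le' hT1 fun r hr _ => hP r hr
    · have hc : n * k ≤ (P \ T1).card := by
        rw [card_sdiff_of_subset hT1, hc1]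
        have : (n + 1) * k = n * k + k := by ring
        omega
      obtain ⟨T2, hT2, hc2, hle⟩ := ih (P \ T1) (fun r hr => hP r (mem_sdiff.mp hr).1) hc
        (by omega)
      have hsplit : (∏ r ∈ P \ T1, r) * ∏ r ∈ T1, r = ∏ r ∈ P, r := prod_sdiff hT1
      rcases Nat.le_total (∏ r ∈ T1, r) (∏ r ∈ T2, r) with h | h
      · refine ⟨T1, hT1, hc1, ?_⟩
        calc (∏ r ∈ T1, r) ^ (n + 1) = (∏ r ∈ T1, r) ^ n * ∏ r ∈ T1, r := pow_succ _ _
          _ ≤ (∏ r ∈ P \ T1, r) * ∏ r ∈ T1, r :=
              Nat.mul_le_mul_right _ ((Nat.pow_le_pow_left h n).trans hle)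
          _ = _ := hsplit
      · refine ⟨T2, hT2.trans sdiff_subset, hc2, ?_⟩
        calc (∏ r ∈ T2, r) ^ (n + 1) = (∏ r ∈ T2, r) ^ n * ∏ r ∈ T2, r := pow_succ _ _
          _ ≤ (∏ r ∈ P \ T1, r) * ∏ r ∈ T1, r := Nat.mul_le_mul hle h
          _ = _ := hsplit

/-- few `y ≤ Y` are such that `y ^ p - 1` has many prime factors -/
theorem card_many {p : ℕ} (hp : p.Prime) (Y k : ℕ) :
    (((Icc 2 Y).filter fun y => 2 * p * k ≤ (y ^ p - 1).primeFactors.card).card : ℝ) * 2 ^ k ≤
      2 * Y * (1 + Real.log Y) ^ p := by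
  set A := (Icc 2 Y).filter fun y => 2 * p * k ≤ (y ^ p - 1).primeFactors.card with hA
  set E : Finset ℕ := (Icc 1 Y).filter fun e => ¬ 4 ∣ e with hE
  have hp0 := hp.pos
  -- every `y` has many small squarefree divisors
  have hmany : ∀ y ∈ A, 2 ^ k ≤ (E.filter fun e => y ^ p ≡ 1 [MOD e]).card := by
    intro y hy
    rw [hA, mem_filter, mem_Icc] at hy
    obtain ⟨⟨hy2, hyY⟩, hy3⟩ := hy
    have hypow : 1 < y ^ p := Nat.one_lt_pow hp0.ne' (by omega)
    set V := y ^ p - 1 with hV
    have hV0 : 0 < V := by omega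
    obtain ⟨T, hT, hTc, hTle⟩ := exists_small k (2 * p) V.primeFactors
      (fun r hr => (Nat.prime_of_mem_primeFactors hr).one_lt.le) hy3 (by omega)
    have h1 : (∏ r ∈ T, r) ^ (2 * p) < y ^ p := by
      calc (∏ r ∈ T, r) ^ (2 * p) ≤ ∏ r ∈ V.primeFactors, r := hTle
        _ ≤ V := Nat.le_of_dvd hV0 (Nat.prod_primeFactors_dvd V)
        _ < y ^ p := by omega
    have h2 : (∏ r ∈ T, r) ^ 2 < y := by
      rw [pow_mul] at h1
      exact lt_of_pow_lt_pow_left₀ p (Nat.zero_le _) h1
    have h3 : ∏ r ∈ T, r ≤ Y := by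
      have h4 : 1 ≤ ∏ r ∈ T, r := Finset.one_le_prod' fun r hr =>
        (Nat.prime_of_mem_primeFactors (hT hr)).one_lt.le
      nlinarith
    have hPF : ∀ S ⊆ T, (∏ r ∈ S, r).primeFactors = S := fun S hS =>
      Nat.primeFactors_prod fun r hr => Nat.prime_of_mem_primeFactors (hT (hS hr))
    calc 2 ^ k = T.powerset.card := by rw [card_powerset, hTc]
      _ = (T.powerset.image fun S => ∏ r ∈ S, r).card := by
          rw [card_image_of_injOn]
          intro S hS S' hS' hh
          rw [mem_coe, mem_powerset] at hS hS'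
          rw [← hPF S hS, ← hPF S' hS']
          simp only at hh
          rw [hh]
      _ ≤ (E.filter fun e => y ^ p ≡ 1 [MOD e]).card := by
          apply card_le_card
          intro e he
          obtain ⟨S, hS, rfl⟩ := mem_image.mp he
          rw [mem_powerset] at hS
          have hdvd : ∏ r ∈ S, r ∣ V :=
            (prod_dvd_prod_of_subset _ _ _ (hS.trans hT)).trans (Nat.prod_primeFactors_dvd V)
          rw [mem_filter, hE, mem_filter, mem_Icc]
          refine ⟨⟨⟨Finset.one_le_prod' fun r hr =>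
            (Nat.prime_of_mem_primeFactors (hT (hS hr))).one_lt.le, ?_⟩, ?_⟩, ?_⟩
          · exact (Finset.prod_le_prod_of_subset_of_one_le' hS fun r hr _ =>
              (Nat.prime_of_mem_primeFactors (hT hr)).one_lt.le).trans h3
          · intro h4
            have hsq : Squarefree (∏ r ∈ S, r) := by
              refine Finset.squarefree_prod_of_pairwise_isCoprime (fun a ha b hb hab => ?_) ?_
              · rw [Function.onFun, ← Nat.coprime_iff_isRelPrime]
                exact (Nat.coprime_primes (Nat.prime_of_mem_primeFactors (hT (hS ha)))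
                  (Nat.prime_of_mem_primeFactors (hT (hS hb)))).mpr hab
              · intro a ha
                exact (Nat.prime_of_mem_primeFactors (hT (hS ha))).squarefree
            have h5 := hsq 2 ((by norm_num : (2 : ℕ) * 2 = 4) ▸ h4)
            exact absurd (Nat.isUnit_iff.mp h5) (by norm_num)
          · have h6 : (1 : ℕ) ≡ y ^ p [MOD ∏ r ∈ S, r] :=
              (Nat.modEq_iff_dvd' hypow.le).mpr hdvd
            exact h6.symm
  have hcount : A.card * 2 ^ k ≤ ∑ e ∈ E, ((Icc 1 Y).filter fun y => y ^ p ≡ 1 [MOD e]).card := by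
    calc A.card * 2 ^ k = ∑ _y ∈ A, 2 ^ k := by rw [sum_const, smul_eq_mul]
      _ ≤ ∑ y ∈ A, (E.filter fun e => y ^ p ≡ 1 [MOD e]).card := sum_le_sum hmany
      _ = ∑ e ∈ E, (A.filter fun y => y ^ p ≡ 1 [MOD e]).card :=
          sum_card_bipartiteAbove_eq_sum_card_bipartiteBelow _
      _ ≤ _ := sum_le_sum fun e _ => card_le_card (filter_subset_filter _ (by
          rw [hA]
          exact (filter_subset _ _).trans (Icc_subset_Icc_left (by norm_num))))
  have hterm : ∀ e ∈ E, (((Icc 1 Y).filter fun y => y ^ p ≡ 1 [MOD e]).card : ℝ) ≤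
      2 * Y * ((p : ℝ) ^ e.primeFactors.card / e) := by
    intro e he
    rw [hE, mem_filter, mem_Icc] at he
    obtain ⟨⟨he1, heY⟩, he4⟩ := he
    have h1 := card_dvd hp he1 (Or.inr he4) Y
    have h2 : (((Icc 1 Y).filter fun y => y ^ p ≡ 1 [MOD e]).card : ℝ) ≤
        (p : ℝ) ^ e.primeFactors.card * (((Y / e : ℕ) : ℝ) + 1) := by exact_mod_cast h1
    have he0 : (0 : ℝ) < e := by exact_mod_cast he1
    have h3 : (((Y / e : ℕ) : ℝ) + 1) ≤ 2 * (Y / e) := by
      have h4 : ((Y / e : ℕ) : ℝ) ≤ Y / e := Nat.cast_div_le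
      have h5 : (1 : ℝ) ≤ Y / e := by
        rw [le_div_iff₀ he0, one_mul]
        exact_mod_cast heY
      linarith
    calc _ ≤ _ := h2
      _ ≤ (p : ℝ) ^ e.primeFactors.card * (2 * (Y / e)) :=
          mul_le_mul_of_nonneg_left h3 (by positivity)
      _ = _ := by ring
  have h1 : (A.card : ℝ) * 2 ^ k ≤
      ∑ e ∈ E, (((Icc 1 Y).filter fun y => y ^ p ≡ 1 [MOD e]).card : ℝ) := by
    exact_mod_cast hcount
  calc (A.card : ℝ) * 2 ^ k ≤ _ := h1
    _ ≤ ∑ e ∈ E, 2 * Y * ((p : ℝ) ^ e.primeFactors.card / e) := sum_le_sum hterm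
    _ ≤ ∑ e ∈ Icc 1 Y, 2 * Y * ((p : ℝ) ^ e.primeFactors.card / e) :=
        sum_le_sum_of_subset_of_nonneg (filter_subset _ _) fun e _ _ => by positivity
    _ = 2 * Y * ∑ e ∈ Icc 1 Y, (p : ℝ) ^ e.primeFactors.card / e := by rw [mul_sum]
    _ ≤ 2 * Y * (∑ e ∈ Icc 1 Y, 1 / (e : ℝ)) ^ p :=
        mul_le_mul_of_nonneg_left (sum_omega_le Y p) (by positivity)
    _ ≤ 2 * Y * (1 + Real.log Y) ^ p := by
        gcongr
        exact sum_inv_le Y

end Pool.Agent.L5helper22.GZ
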