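import Mathlib

/-!
# Resultants of `X ^ p - 1` and `(X - h) ^ p - e`
-/

set_option autoImplicit false

open Finset Polynomial

namespace Pool.Agent.L5helper22.GZ

/-- the polynomial `(X - h) ^ p - e` -/
noncomputable def FF (p h e : ℕ) : ℤ[X] := (X - C (h : ℤ)) ^ p - C (e : ℤ)

/-- the absolute value of the resultant of `X ^ p - 1` and `(X - h) ^ p - e` -/
noncomputable def NN (p h e : ℕ) : ℕ := (resultant (X ^ p - 1 : ℤ[X]) (FF p h e)).natAbs

lemma natDegree_one (p : ℕ) : (X ^ p - 1 : ℤ[X]).natDegree = p := by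
  have := natDegree_X_pow_sub_C (R := ℤ) (n := p) (r := 1)
  simpa using this

lemma natDegree_FF {p : ℕ} (hp : 0 < p) (h e : ℕ) : (FF p h e).natDegree = p := by
  unfold FF
  rw [natDegree_sub_C, natDegree_pow, natDegree_X_sub_C, mul_one]

lemma dvd_NN {p h e : ℕ} (hp : 0 < p) {g y : ℤ} (h1 : g ∣ y ^ p - 1)
    (h2 : g ∣ (y - h) ^ p - e) : g ∣ (NN p h e : ℤ) := by
  obtain ⟨a, b, -, -, hab⟩ := exists_mul_add_mul_eq_C_resultant (X ^ p - 1 : ℤ[X]) (FF p h e)
    le_rfl le_rfl (Or.inl (by rw [natDegree_one]; omega))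
  have h3 := congrArg (eval y) hab
  rw [eval_add, eval_mul, eval_mul, eval_C] at h3
  have h4 : eval y (X ^ p - 1 : ℤ[X]) = y ^ p - 1 := by simp
  have h5 : eval y (FF p h e) = (y - h) ^ p - e := by simp [FF]
  rw [h4, h5] at h3
  unfold NN
  rw [Int.dvd_natAbs, ← h3]
  exact dvd_add (Dvd.dvd.mul_right h1 _) (Dvd.dvd.mul_right h2 _)

lemma coeff_FF (p h e k : ℕ) : (FF p h e).coeff k =
    (-(h : ℤ)) ^ (p - k) * (p.choose k : ℤ) - if k = 0 then (e : ℤ) else 0 := by
  unfold FF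
  rw [coeff_sub, coeff_C, sub_eq_add_neg X, ← C_neg, coeff_X_add_C_pow]

/-- the degree one cofactor argument -/
lemma not_dvd {p h e : ℕ} (hp : p.Prime) (hp2 : p ≠ 2) (hh : 1 ≤ h) :
    ¬ cyclotomic p ℚ ∣ (FF p h e).map (Int.castRingHom ℚ) := by
  have hp3 : 3 ≤ p := by
    have := hp.two_le
    omega
  rintro ⟨q, hq⟩
  set G : ℚ[X] := (FF p h e).map (Int.castRingHom ℚ) with hG
  have hGdeg : G.natDegree = p := by
    rw [hG, natDegree_map_eq_of_injective (RingHom.injective_int _), natDegree_FF hp.pos]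
  have hG0 : G ≠ 0 := by
    intro h0
    rw [h0, natDegree_zero] at hGdeg
    omega
  have h1 : (X - 1 : ℚ[X]) * G = (X ^ p - 1) * q := by
    rw [hq, ← cyclotomic_prime_mul_X_sub_one ℚ p (hn := ⟨hp⟩)]
    ring
  have hq0 : q ≠ 0 := by
    rintro rfl
    rw [mul_zero] at hq
    exact hG0 hq
  have hX1 : (X ^ p - 1 : ℚ[X]).natDegree = p := by
    have := natDegree_X_pow_sub_C (R := ℚ) (n := p) (r := 1)
    simpa using this
  have hXne : (X ^ p - 1 : ℚ[X]) ≠ 0 := by
    intro h0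
    rw [h0, natDegree_zero] at hX1
    omega
  have hX2 : (X - 1 : ℚ[X]).natDegree = 1 := by
    have := natDegree_X_sub_C (R := ℚ) 1
    simpa using this
  have hX3 : (X - 1 : ℚ[X]) ≠ 0 := by
    intro h0
    rw [h0, natDegree_zero] at hX2
    omega
  have hqdeg : q.natDegree = 1 := by
    have h2 := congrArg natDegree h1
    rw [natDegree_mul hX3 hG0, natDegree_mul hXne hq0, hX2, hGdeg, hX1] at h2
    omega
  have h2 : ((X - 1 : ℚ[X]) * G).coeff (p - 1) = ((X ^ p - 1) * q).coeff (p - 1) := by rw [h1]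
  rw [sub_mul, sub_mul, one_mul, one_mul, coeff_sub, coeff_sub] at h2
  have e1 : p - 1 = (p - 2) + 1 := by omega
  have h3 : (X * G).coeff (p - 1) = G.coeff (p - 2) := by
    rw [e1, coeff_X_mul]
  have h4 : (X ^ p * q).coeff (p - 1) = 0 := by
    rw [coeff_X_pow_mul']
    rw [if_neg (by omega)]
  have h5 : q.coeff (p - 1) = 0 := by
    apply coeff_eq_zero_of_natDegree_lt
    omega
  rw [h3, h4, h5] at h2
  have h6 : G.coeff (p - 2) = ((h : ℚ) ^ 2) * (p.choose 2 : ℚ) := by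
    rw [hG, coeff_map, coeff_FF, if_neg (by omega)]
    have e2 : p - (p - 2) = 2 := by omega
    have e3 : p.choose (p - 2) = p.choose 2 := Nat.choose_symm (by omega)
    rw [e2, e3]
    simp
  have h7 : G.coeff (p - 1) = -(h : ℚ) * p := by
    rw [hG, coeff_map, coeff_FF, if_neg (by omega)]
    have e2 : p - (p - 1) = 1 := by omega
    have e3 : p.choose (p - 1) = p := by
      rw [Nat.choose_symm (by omega : 1 ≤ p), Nat.choose_one_right]
    rw [e2, e3]
    simp
  rw [h6, h7] at h2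
  have h8 : (0 : ℚ) < h := by exact_mod_cast hh
  have h9 : (0 : ℚ) < p := by exact_mod_cast hp.pos
  have h10 : (0 : ℚ) ≤ (h : ℚ) ^ 2 * (p.choose 2 : ℚ) := by positivity
  have h11 : 0 < (h : ℚ) * p := by positivity
  linarith

lemma NN_ne_zero {p h e : ℕ} (hp : p.Prime) (h1 : (1 - (h : ℤ)) ^ p ≠ e)
    (h2 : ¬ cyclotomic p ℚ ∣ (FF p h e).map (Int.castRingHom ℚ)) : NN p h e ≠ 0 := by
  unfold NN
  rw [Int.natAbs_ne_zero]
  intro h0
  have hcop : IsCoprime (X ^ p - 1 : ℚ[X]) ((FF p h e).map (Int.castRingHom ℚ)) := by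
    rw [← cyclotomic_prime_mul_X_sub_one ℚ p (hn := ⟨hp⟩)]
    apply IsCoprime.mul_left
    · exact ((cyclotomic.irreducible_rat hp.pos).coprime_iff_not_dvd).mpr h2
    · have hirr : Irreducible (X - 1 : ℚ[X]) := by
        have := irreducible_X_sub_C (1 : ℚ)
        simpa using this
      apply (hirr.coprime_iff_not_dvd).mpr
      intro hd
      have h3 : (X - C (1 : ℚ)) ∣ (FF p h e).map (Int.castRingHom ℚ) := by simpa using hd
      rw [dvd_iff_isRoot, IsRoot.def] at h3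
      apply h1
      have h4 : eval (1 : ℚ) ((FF p h e).map (Int.castRingHom ℚ)) =
          (((1 - (h : ℤ)) ^ p - e : ℤ) : ℚ) := by
        simp [FF]
      rw [h4] at h3
      have h5 : (1 - (h : ℤ)) ^ p - e = 0 := by exact_mod_cast h3
      linarith
  have h3 := resultant_map_map (X ^ p - 1 : ℤ[X]) (FF p h e) (X ^ p - 1 : ℤ[X]).natDegree
    (FF p h e).natDegree (Int.castRingHom ℚ)
  rw [h0, map_zero] at h3
  have h4 : ((X ^ p - 1 : ℤ[X]).map (Int.castRingHom ℚ)) = (X ^ p - 1 : ℚ[X]) := by simp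
  have h5 : (X ^ p - 1 : ℤ[X]).natDegree = (X ^ p - 1 : ℚ[X]).natDegree := by
    rw [← h4, natDegree_map_eq_of_injective (RingHom.injective_int _)]
  have h6 : (FF p h e).natDegree = ((FF p h e).map (Int.castRingHom ℚ)).natDegree := by
    rw [natDegree_map_eq_of_injective (RingHom.injective_int _)]
  rw [h4, h5, h6] at h3
  exact (resultant_eq_zero_iff.mp h3).2 hcop

lemma NN_ne_zero_odd {p h e : ℕ} (hp : p.Prime) (hp2 : p ≠ 2) (hh : 1 ≤ h) (he : 1 ≤ e) :
    NN p h e ≠ 0 := by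
  refine NN_ne_zero hp ?_ (not_dvd hp hp2 hh)
  intro h1
  have hodd : Odd p := hp.odd_of_ne_two hp2
  have h2 : (1 - (h : ℤ)) ^ p ≤ 0 := by
    apply hodd.pow_nonpos
    have : (1 : ℤ) ≤ h := by exact_mod_cast hh
    linarith
  have h3 : (1 : ℤ) ≤ e := by exact_mod_cast he
  linarith

lemma NN_ne_zero_two {h e : ℕ} (h1 : (1 - (h : ℤ)) ^ 2 ≠ e) (h2 : (1 + (h : ℤ)) ^ 2 ≠ e) :
    NN 2 h e ≠ 0 := by
  refine NN_ne_zero Nat.prime_two h1 ?_
  rw [cyclotomic_two]
  intro hd
  have h3 : (X - C (-1 : ℚ)) ∣ (FF 2 h e).map (Int.castRingHom ℚ) := by simpa using hd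
  rw [dvd_iff_isRoot, IsRoot.def] at h3
  have h4 : eval (-1 : ℚ) ((FF 2 h e).map (Int.castRingHom ℚ)) =
      (((1 + (h : ℤ)) ^ 2 - e : ℤ) : ℚ) := by
    simp [FF]
    ring
  rw [h4] at h3
  have h5 : (1 + (h : ℤ)) ^ 2 - e = 0 := by exact_mod_cast h3
  exact h2 (by linarith)

lemma NN_le (p h e : ℕ) (hp : 0 < p) :
    NN p h e ≤ (2 * p).factorial * ((1 + h) ^ p + e) ^ (2 * p) := by
  have hc : ∀ k, |(FF p h e).coeff k| ≤ ((1 + h) ^ p + e : ℤ) := by
    intro k
    rw [coeff_FF]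
    have h1 : |(-(h : ℤ)) ^ (p - k) * (p.choose k : ℤ)| ≤ (1 + h) ^ p := by
      rw [abs_mul, abs_pow, abs_neg, Nat.abs_cast, Nat.abs_cast]
      rcases Nat.lt_or_ge p k with hk | hk
      · rw [Nat.choose_eq_zero_of_lt hk]
        simp only [Nat.cast_zero, mul_zero]
        positivity
      · rw [add_pow (1 : ℤ) (h : ℤ) p]
        have := Finset.single_le_sum (f := fun m => (1 : ℤ) ^ m * (h : ℤ) ^ (p - m) *
          ((p.choose m : ℕ) : ℤ)) (fun i _ => by positivity)
          (Finset.mem_range.mpr (show k < p + 1 by omega))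
        simpa using this
    have h2 : |(if k = 0 then (e : ℤ) else 0)| ≤ e := by
      split_ifs
      · rw [Nat.abs_cast]
      · simp
    calc _ ≤ |(-(h : ℤ)) ^ (p - k) * (p.choose k : ℤ)| + |(if k = 0 then (e : ℤ) else 0)| :=
          abs_sub _ _
      _ ≤ _ := add_le_add h1 h2
  have hB : (1 : ℤ) ≤ (1 + h) ^ p + e := by
    have : (1 : ℤ) ≤ (1 + h) ^ p := one_le_pow₀ (by linarith [Int.natCast_nonneg h])
    linarith [Int.natCast_nonneg e]
  have hc' : ∀ k, |(X ^ p - 1 : ℤ[X]).coeff k| ≤ ((1 + h) ^ p + e : ℤ) := by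
    intro k
    refine le_trans ?_ hB
    rw [coeff_sub, coeff_X_pow, coeff_one]
    split_ifs <;> simp_all
  have h1 := Matrix.det_le (A := sylvester (X ^ p - 1 : ℤ[X]) (FF p h e)
    (X ^ p - 1 : ℤ[X]).natDegree (FF p h e).natDegree) (abv := AbsoluteValue.abs)
    (x := ((1 + h) ^ p + e : ℤ)) (by
      intro i j
      show |_| ≤ _
      unfold sylvester
      rw [Matrix.of_apply]
      induction j using Fin.addCases with
      | left j =>
        rw [Fin.addCases_left]
        split_ifs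
        · exact hc _
        · simp only [abs_zero]; linarith
      | right j =>
        rw [Fin.addCases_right]
        split_ifs
        · exact hc' _
        · simp only [abs_zero]; linarith)
  rw [Fintype.card_fin, natDegree_one, natDegree_FF hp] at h1
  rw [two_mul p]
  have h2 : ((NN p h e : ℕ) : ℤ) ≤ ((p + p).factorial * ((1 + h) ^ p + e) ^ (p + p) : ℕ) := by
    unfold NN
    rw [Int.natCast_natAbs]
    unfold resultant
    rw [natDegree_one, natDegree_FF hp]
    rw [nsmul_eq_mul] at h1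
    push_cast
    exact h1
  exact_mod_cast h2

end Pool.Agent.L5helper22.GZ
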