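import Pool.Agent.L5helper22.GZ.Comb
import Pool.Agent.L5helper22.GZ.Div
import Pool.Agent.L5helper22.GZ.Res

/-!
# The descent after a zero: the large gcds
-/

set_option autoImplicit false

open Finset

namespace Pool.Agent.L5helper22.GZ

/-- the number `y ^ p - 1` -/
def V (p y : ℕ) : ℕ := y ^ p - 1

/-- the sum of the first `i` gcds of the descent which starts at `m ^ p - 1` at the time `m` -/
def S (p m : ℕ) : ℕ → ℕ
  | 0 => 0
  | i + 1 => S p m i + Nat.gcd (V p m - S p m i) (V p (m + i + 1))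

/-- the gcds of the descent -/
def G (p m i : ℕ) : ℕ := Nat.gcd (V p m - S p m i) (V p (m + i + 1))

lemma S_succ (p m i : ℕ) : S p m (i + 1) = S p m i + G p m i := rfl

lemma S_mono (p m : ℕ) : Monotone (S p m) := monotone_nat_of_le_succ fun i => by
  rw [S_succ]; omega

lemma V_pos {p y : ℕ} (hp : 0 < p) (hy : 2 ≤ y) : 0 < V p y := by
  have : 1 < y ^ p := Nat.one_lt_pow hp.ne' (by omega)
  unfold V
  omega

lemma V_cast {p y : ℕ} (hy : 1 ≤ y) : ((V p y : ℕ) : ℤ) = (y : ℤ) ^ p - 1 := by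
  have : 1 ≤ y ^ p := Nat.one_le_pow _ _ hy
  unfold V
  rw [Nat.cast_sub this]
  push_cast
  ring

lemma G_pos {p m : ℕ} (hp : 0 < p) (hm : 1 ≤ m) (i : ℕ) : 0 < G p m i :=
  Nat.gcd_pos_of_pos_right _ (V_pos hp (by omega))

lemma G_dvd_V (p m i : ℕ) : ((G p m i : ℕ) : ℤ) ∣ ((V p (m + i + 1) : ℕ) : ℤ) :=
  Int.natCast_dvd_natCast.mpr (Nat.gcd_dvd_right _ _)

lemma G_dvd_A {p m i : ℕ} (h : S p m i ≤ V p m) :
    ((G p m i : ℕ) : ℤ) ∣ ((V p m : ℕ) : ℤ) - (S p m i : ℤ) := by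
  rw [← Nat.cast_sub h]
  exact Int.natCast_dvd_natCast.mpr (Nat.gcd_dvd_left _ _)

/-- every gcd divides a resultant -/
lemma G_dvd_NN {p m i : ℕ} (hp : 0 < p) (hm : 1 ≤ m) (h : S p m i ≤ V p m) :
    G p m i ∣ NN p (i + 1) (1 + S p m i) := by
  have h1 := G_dvd_V p m i
  rw [V_cast (by omega)] at h1
  have h2 := G_dvd_A h
  rw [V_cast hm] at h2
  have h3 : ((G p m i : ℕ) : ℤ) ∣ ((((m + i + 1 : ℕ) : ℤ) - ((i + 1 : ℕ) : ℤ)) ^ p -
      ((1 + S p m i : ℕ) : ℤ)) := by
    have e1 : (((m + i + 1 : ℕ) : ℤ) - ((i + 1 : ℕ) : ℤ)) = (m : ℤ) := by push_cast; ring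
    rw [e1]
    have e2 : (m : ℤ) ^ p - ((1 + S p m i : ℕ) : ℤ) = (m : ℤ) ^ p - 1 - (S p m i : ℤ) := by
      push_cast; ring
    rw [e2]
    exact h2
  exact Int.natCast_dvd_natCast.mp (dvd_NN hp h1 h3)

/-- `p = 2`: the gcds are odd -/
lemma parity {m : ℕ} (hm : 1 ≤ m) : ∀ i, S 2 m i ≤ V 2 m →
    S 2 m i % 2 = i % 2 ∧ G 2 m i % 2 = 1 := by
  have key : ∀ i, S 2 m i ≤ V 2 m → S 2 m i % 2 = i % 2 → G 2 m i % 2 = 1 := by
    intro i hi hpar
    have h1 := G_dvd_V 2 m i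
    rw [V_cast (by omega)] at h1
    have h2 := G_dvd_A hi
    rw [V_cast hm] at h2
    by_contra hcon
    have h3 : (2 : ℤ) ∣ ((G 2 m i : ℕ) : ℤ) := by
      have : 2 ∣ G 2 m i := Nat.dvd_of_mod_eq_zero (by omega)
      exact_mod_cast this
    have h4 := h3.trans h1
    have h5 := h3.trans h2
    have e1 : (((m + i + 1 : ℕ) : ℤ)) ^ 2 - 1 = ((m : ℤ) + i) * (m + i + 2) := by push_cast; ring
    rw [e1] at h4
    have h6 : (2 : ℤ) ∣ (m : ℤ) + i := by
      rcases (Int.prime_two.dvd_mul).mp h4 with h | h <;> omega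
    have h7 : (m : ℤ) ^ 2 = m * (m - 1) + m := by ring
    have h8 : (2 : ℤ) ∣ (m : ℤ) * (m - 1) := by
      rcases Int.even_or_odd (m : ℤ) with h | h
      · exact (h.two_dvd).mul_right _
      · have : Even ((m : ℤ) - 1) := by
          obtain ⟨k, hk⟩ := h
          exact ⟨k, by omega⟩
        exact (this.two_dvd).mul_left _
    rw [h7] at h5
    omega
  intro i
  induction i with
  | zero =>
    intro h
    exact ⟨rfl, key 0 h rfl⟩
  | succ i ih =>
    intro h
    have h1 : S 2 m i ≤ V 2 m := (S_mono 2 m (Nat.le_succ i)).trans h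
    obtain ⟨h2, h3⟩ := ih h1
    have h4 : S 2 m (i + 1) % 2 = (i + 1) % 2 := by
      rw [S_succ]
      omega
    exact ⟨h4, key _ h h4⟩

lemma NN_pos {p m i : ℕ} (hp : p.Prime) (hm : 1 ≤ m) (h : S p m i ≤ V p m) :
    NN p (i + 1) (1 + S p m i) ≠ 0 := by
  by_cases hp2 : p = 2
  · subst hp2
    obtain ⟨h1, -⟩ := parity hm i h
    apply NN_ne_zero_two
    · intro h2
      have h3 : ((1 - ((i + 1 : ℕ) : ℤ)) ^ 2) = (i : ℤ) * i := by push_cast; ring
      rw [h3] at h2
      have h4 : (i : ℤ) * i = i * (i - 1) + i := by ring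
      have h5 : (2 : ℤ) ∣ (i : ℤ) * (i - 1) := by
        rcases Int.even_or_odd (i : ℤ) with h | h
        · exact (h.two_dvd).mul_right _
        · have : Even ((i : ℤ) - 1) := by
            obtain ⟨k, hk⟩ := h
            exact ⟨k, by omega⟩
          exact (this.two_dvd).mul_left _
      push_cast at h2
      omega
    · intro h2
      have h3 : ((1 + ((i + 1 : ℕ) : ℤ)) ^ 2) = (i : ℤ) * (i - 1) + i + 4 * i + 4 := by
        push_cast; ring
      rw [h3] at h2
      have h5 : (2 : ℤ) ∣ (i : ℤ) * (i - 1) := by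
        rcases Int.even_or_odd (i : ℤ) with h | h
        · exact (h.two_dvd).mul_right _
        · have : Even ((i : ℤ) - 1) := by
            obtain ⟨k, hk⟩ := h
            exact ⟨k, by omega⟩
          exact (this.two_dvd).mul_left _
      push_cast at h2
      omega
  · exact NN_ne_zero_odd hp hp2 (by omega) (by omega)

/-- the bound for common divisors -/
def C3 (p L : ℕ) : ℕ := (2 * p).factorial * ((1 + L) ^ p + 1) ^ (2 * p)

lemma C3_pos (p L : ℕ) : 0 < C3 p L :=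
  Nat.mul_pos (Nat.factorial_pos _) (Nat.pos_of_ne_zero (pow_ne_zero _ (by omega)))

/-- two gcds have a small common divisor -/
lemma gcd_le {p m i j L : ℕ} (hp : p.Prime) (hm : 1 ≤ m) (hij : i < j) (hjL : j < L)
    (h : S p m j ≤ V p m) : Nat.gcd (G p m i) (G p m j) ≤ C3 p L := by
  have hd1 : ((Nat.gcd (G p m i) (G p m j) : ℕ) : ℤ) ∣ ((m + i + 1 : ℕ) : ℤ) ^ p - 1 := by
    rw [← V_cast (by omega)]
    exact (Int.natCast_dvd_natCast.mpr (Nat.gcd_dvd_left _ _)).trans (G_dvd_V p m i)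
  have hd2 : ((Nat.gcd (G p m i) (G p m j) : ℕ) : ℤ) ∣ ((m + j + 1 : ℕ) : ℤ) ^ p - 1 := by
    rw [← V_cast (by omega)]
    exact (Int.natCast_dvd_natCast.mpr (Nat.gcd_dvd_right _ _)).trans (G_dvd_V p m j)
  by_cases hspec : p = 2 ∧ j = i + 2
  · -- the common divisor is one
    obtain ⟨hp2, rfl⟩ := hspec
    subst hp2
    have h0 : S 2 m i ≤ V 2 m := (S_mono 2 m (by omega)).trans h
    have hA1 := G_dvd_A h0
    have hA2 := G_dvd_A h
    set d := Nat.gcd (G 2 m i) (G 2 m (i + 2)) with hd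
    have e1 : (S 2 m (i + 2) : ℤ) = S 2 m i + G 2 m i + G 2 m (i + 1) := by
      have : S 2 m (i + 2) = S 2 m i + G 2 m i + G 2 m (i + 1) := by
        rw [S_succ, S_succ]
      exact_mod_cast this
    have hdi : (d : ℤ) ∣ (G 2 m i : ℤ) := Int.natCast_dvd_natCast.mpr (Nat.gcd_dvd_left _ _)
    have hdj : (d : ℤ) ∣ (G 2 m (i + 2) : ℤ) :=
      Int.natCast_dvd_natCast.mpr (Nat.gcd_dvd_right _ _)
    have h1 : (d : ℤ) ∣ (G 2 m (i + 1) : ℤ) := by
      have h2 := hdi.trans hA1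
      have h3 := hdj.trans hA2
      rw [e1] at h3
      have h4 := dvd_sub h2 h3
      have e2 : ((V 2 m : ℕ) : ℤ) - (S 2 m i : ℤ) -
          (((V 2 m : ℕ) : ℤ) - (S 2 m i + G 2 m i + G 2 m (i + 1))) =
          G 2 m i + G 2 m (i + 1) := by ring
      rw [e2] at h4
      exact (dvd_add_right hdi).mp h4
    have h2 := h1.trans (G_dvd_V 2 m (i + 1))
    rw [V_cast (by omega)] at h2
    have h3 : (d : ℤ) ∣ 2 := by
      have e2 : (2 : ℤ) = (((m + (i + 2) + 1 : ℕ) : ℤ) ^ 2 - 1) -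
          (((m + (i + 1) + 1 : ℕ) : ℤ) ^ 2 - 1) - ((((m + (i + 1) + 1 : ℕ) : ℤ) ^ 2 - 1) -
          (((m + i + 1 : ℕ) : ℤ) ^ 2 - 1)) := by push_cast; ring
      rw [e2]
      exact dvd_sub (dvd_sub hd2 h2) (dvd_sub h2 hd1)
    have h4 : d ≤ 2 := Nat.le_of_dvd (by norm_num) (by exact_mod_cast h3)
    refine h4.trans ?_
    unfold C3
    have h5 : 2 ≤ (1 + L) ^ 2 + 1 := by
      have : 1 ≤ (1 + L) ^ 2 := Nat.one_le_pow _ _ (by omega)
      omega
    calc 2 ≤ (1 + L) ^ 2 + 1 := h5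
      _ = ((1 + L) ^ 2 + 1) ^ 1 := (pow_one _).symm
      _ ≤ ((1 + L) ^ 2 + 1) ^ (2 * 2) := Nat.pow_le_pow_right (by omega) (by norm_num)
      _ ≤ _ := Nat.le_mul_of_pos_left _ (Nat.factorial_pos _)
  · have hdvd : Nat.gcd (G p m i) (G p m j) ∣ NN p (j - i) 1 := by
      have h3 : ((Nat.gcd (G p m i) (G p m j) : ℕ) : ℤ) ∣
          ((((m + j + 1 : ℕ) : ℤ) - ((j - i : ℕ) : ℤ)) ^ p - ((1 : ℕ) : ℤ)) := by
        have e1 : (((m + j + 1 : ℕ) : ℤ) - ((j - i : ℕ) : ℤ)) = ((m + i + 1 : ℕ) : ℤ) := by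
          rw [Nat.cast_sub hij.le]; push_cast; ring
        rw [e1, Nat.cast_one]
        exact hd1
      exact Int.natCast_dvd_natCast.mp (dvd_NN hp.pos hd2 h3)
    have hne : NN p (j - i) 1 ≠ 0 := by
      by_cases hp2 : p = 2
      · subst hp2
        have hh : j - i ≠ 2 := fun h2 => hspec ⟨rfl, by omega⟩
        obtain ⟨c, hc⟩ : ∃ c : ℕ, c = j - i := ⟨_, rfl⟩
        rw [← hc] at hh ⊢
        have hc1 : 1 ≤ c := by omega
        apply NN_ne_zero_two
        · intro h2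
          have h3 : (c : ℤ) * (c - 2) = 0 := by push_cast at h2; linarith
          rcases mul_eq_zero.mp h3 with h4 | h4 <;> omega
        · intro h2
          have h3 : (c : ℤ) * (c + 2) = 0 := by push_cast at h2; linarith
          rcases mul_eq_zero.mp h3 with h4 | h4 <;> omega
      · exact NN_ne_zero_odd hp hp2 (by omega) le_rfl
    calc Nat.gcd (G p m i) (G p m j) ≤ NN p (j - i) 1 :=
          Nat.le_of_dvd (Nat.pos_of_ne_zero hne) hdvd
      _ ≤ (2 * p).factorial * ((1 + (j - i)) ^ p + 1) ^ (2 * p) := NN_le p _ 1 hp.pos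
      _ ≤ C3 p L := by
          unfold C3
          gcongr
          omega

/-- the labels: a divisor of the resultant with few prime factors, and a root of unity modulo it -/
noncomputable def D (p w i t : ℕ) : Finset (ℕ × ℕ) :=
  ((few w (NN p (i + 1) (1 + t))).filter fun g => p ≠ 2 ∨ ¬ 4 ∣ g).biUnion fun g =>
    (cls p g).image fun c => (g, c)

lemma card_D {p w i t X : ℕ} (hp : p.Prime) (h : NN p (i + 1) (1 + t) ≤ X) :
    (D p w i t).card ≤ (Nat.log 2 X + 1) ^ (2 * w) * p ^ w := by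
  unfold D
  set N := NN p (i + 1) (1 + t) with hN
  calc _ ≤ ∑ g ∈ (few w N).filter fun g => p ≠ 2 ∨ ¬ 4 ∣ g,
          ((cls p g).image fun c => (g, c)).card := card_biUnion_le
    _ ≤ ∑ _g ∈ (few w N).filter fun g => p ≠ 2 ∨ ¬ 4 ∣ g, p ^ w := by
        refine sum_le_sum fun g hg => ?_
        rw [mem_filter, few, mem_filter, Nat.mem_divisors] at hg
        obtain ⟨⟨⟨h1, h2⟩, h3⟩, h4⟩ := hg
        have hg0 : 0 < g := Nat.pos_of_dvd_of_pos h1 (Nat.pos_of_ne_zero h2)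
        exact card_image_le.trans ((card_cls hp hg0 h4).trans
          (Nat.pow_le_pow_right hp.pos h3))
    _ = ((few w N).filter fun g => p ≠ 2 ∨ ¬ 4 ∣ g).card * p ^ w := by
        rw [sum_const, smul_eq_mul]
    _ ≤ (few w N).card * p ^ w := Nat.mul_le_mul_right _ (card_filter_le _ _)
    _ ≤ _ := by
        apply Nat.mul_le_mul_right
        rcases Nat.eq_zero_or_pos N with h0 | h0
        · rw [h0]
          have : few w 0 = ∅ := by simp [few]
          rw [this, card_empty]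
          exact Nat.zero_le _
        · exact card_few_le h0 h w

/-- the good starting points -/
def Good (p L Smax w m : ℕ) : Prop :=
  2 ≤ m ∧ Smax ≤ V p m ∧ ∀ i < L, (V p (m + i + 1)).primeFactors.card ≤ w

/-- the bound for all resultants -/
def Nmax (p L Smax : ℕ) : ℕ := (2 * p).factorial * ((1 + L) ^ p + (1 + Smax)) ^ (2 * p)

lemma NN_le_Nmax {p L Smax i t : ℕ} (hp : 0 < p) (hi : i < L) (ht : t < Smax) :
    NN p (i + 1) (1 + t) ≤ Nmax p L Smax := by
  refine (NN_le p _ _ hp).trans ?_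
  unfold Nmax
  gcongr
  omega

/-- **Few starting points with a fast descent.** -/
theorem card_fast {p : ℕ} (hp : p.Prime) (X L R w E Smax : ℕ) (H : ℝ) (hL : 0 < L) (hE : 0 < E)
    (hR : L < 2 ^ R) (hS : (2 * L * E) ^ ee R 2 R ≤ Smax) (hN : Nmax p L Smax ^ R ≤ X)
    (hNX : Nmax p L Smax ≤ X)
    (hH : ∑ t ∈ range Smax, 1 / ((t : ℝ) + 1) ≤ H)
    (hM : 2 * ((L : ℝ) * H * ((Nat.log 2 X + 1) ^ (2 * w) * p ^ w : ℕ) * (C3 p L ^ R : ℕ)) ≤ E)
    (T : Finset ℕ) (hT : ∀ m ∈ T, Good p L Smax w m ∧ m ≤ X ∧ ∃ b ≤ L, Smax ≤ S p m b) :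
    (T.card : ℝ) ≤ 4 * X *
      ((L : ℝ) * H * ((Nat.log 2 X + 1) ^ (2 * w) * p ^ w : ℕ) * (C3 p L ^ R : ℕ)) / E := by
  classical
  have hEr : (0 : ℝ) < E := by exact_mod_cast hE
  have hH0 : 0 ≤ H := le_trans (sum_nonneg fun t _ => by positivity) hH
  set Dv : ℕ := (Nat.log 2 X + 1) ^ (2 * w) * p ^ w with hDv
  set M : ℝ := (L : ℝ) * H * Dv * (C3 p L ^ R : ℕ) with hMdef
  have hM0 : 0 ≤ M := by positivity
  have hSmax : 0 < Smax := by
    refine lt_of_lt_of_le ?_ hS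
    exact Nat.pos_of_ne_zero (pow_ne_zero _ (by positivity))
  -- every point of `T` has a chain
  have hex : ∀ m ∈ T, ∃ r, 1 ≤ r ∧ r ≤ R ∧
      Ext (G p m) (S p m) L Smax (C3 p L ^ R) r 0 1 ((E : ℝ) ^ r) := by
    intro m hm
    obtain ⟨⟨hm2, hVm, -⟩, -, b, hbL, hb⟩ := hT m hm
    by_contra hcon
    push Not at hcon
    have hexb : ∃ b, Smax ≤ S p m b := ⟨b, hb⟩
    set b₀ := Nat.find hexb with hb₀
    have h1 : Smax ≤ S p m b₀ := Nat.find_spec hexb
    have h2 : b₀ ≤ b := Nat.find_min' hexb hb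
    have h3 : ∀ i, i < b₀ → S p m i < Smax := fun i hi => by
      have := Nat.find_min hexb hi
      omega
    have hslow := slow (g := G p m) (s := S p m) (L := L) (Smax := Smax) (B3 := C3 p L ^ R)
      (G3 := C3 p L) (E := E) (R := R) (K := 2) (fun i => S_succ p m i) hL hE
      (fun i => G_pos hp.pos (by omega) i) le_rfl (C3_pos p L)
      (fun i j hij hjL hsj => gcd_le hp (by omega) hij hjL (by omega)) (fun r h1 h2 => hcon r h1 h2)
      R 0 0 1 1 (by omega) ⟨fun r Y h => by rw [Nat.zero_add, mul_one]; exact h,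
        fun i _ _ _ => by rw [Nat.gcd_one_left, pow_zero], by rw [pow_zero]⟩
      b₀ (Nat.zero_le _) (by omega) h3 (by
        have e0 : S p m 0 = 0 := rfl
        rw [e0]
        omega)
    omega
  -- count the points with a chain of length `r`
  have hcount : ∀ r, r ≤ R → ((T.filter fun m =>
      Ext (G p m) (S p m) L Smax (C3 p L ^ R) r 0 1 ((E : ℝ) ^ r)).card : ℝ) ≤
        2 * X * (M / E) ^ r := by
    intro r hr
    have hc := count (Λ := ℕ × ℕ) X L Smax (C3 p L ^ R) (Nmax p L Smax) Dv H (G p) (S p)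
      (Good p L Smax w) (fun m i => S_succ p m i)
      (fun m i hm => G_pos hp.pos (by have := hm.1; omega) i) (D p w)
      (fun i t hi ht => card_D hp ((NN_le_Nmax hp.pos hi ht).trans hNX))
      (fun m i => (G p m i, (m + i + 1) % G p m i))
      (by
        intro m i hm hi hs
        obtain ⟨hm2, hVm, hω⟩ := hm
        have hSV : S p m i ≤ V p m := by omega
        have hg0 := G_pos (m := m) hp.pos (by omega) i
        unfold D
        rw [mem_biUnion]
        refine ⟨G p m i, ?_, ?_⟩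
        · rw [mem_filter, few, mem_filter, Nat.mem_divisors]
          refine ⟨⟨⟨G_dvd_NN hp.pos (by omega) hSV, NN_pos hp (by omega) hSV⟩, ?_⟩, ?_⟩
          · refine le_trans (card_le_card ?_) (hω i hi)
            exact Nat.primeFactors_mono (Nat.gcd_dvd_right _ _)
              (V_pos hp.pos (by omega)).ne'
          · by_cases hp2 : p = 2
            · right
              subst hp2
              have := (parity (by omega : 1 ≤ m) i hSV).2
              omega
            · exact Or.inl hp2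
        · rw [mem_image]
          refine ⟨(m + i + 1) % G p m i, ?_, rfl⟩
          rw [cls, mem_filter, mem_range]
          refine ⟨Nat.mod_lt _ hg0, ((Nat.mod_modEq _ _).pow p).trans ?_⟩
          have h1 : G p m i ∣ (m + i + 1) ^ p - 1 := Nat.gcd_dvd_right _ _
          exact ((Nat.modEq_iff_dvd' (Nat.one_le_pow _ _ (by omega))).mpr h1).symm)
      (by
        intro m m' i _ _ _ _ _ hlab
        simp only [Prod.mk.injEq] at hlab
        obtain ⟨h1, h2⟩ := hlab
        refine ⟨h1, ?_⟩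
        rw [← h1] at h2
        have h3 : m + i + 1 ≡ m' + i + 1 [MOD G p m i] := h2
        exact Nat.ModEq.add_right_cancel' (i + 1) (by simpa [Nat.add_assoc] using h3))
      (by
        intro m i hm hi hs
        obtain ⟨hm2, hVm, -⟩ := hm
        have hSV : S p m i ≤ V p m := by omega
        exact (Nat.le_of_dvd (Nat.pos_of_ne_zero (NN_pos hp (by omega) hSV))
          (G_dvd_NN hp.pos (by omega) hSV)).trans (NN_le_Nmax hp.pos hi hs))
      hH r 0 1 ((E : ℝ) ^ r) 0 (T.filter fun m =>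
        Ext (G p m) (S p m) L Smax (C3 p L ^ R) r 0 1 ((E : ℝ) ^ r))
      (by
        intro m hm
        rw [mem_filter] at hm
        obtain ⟨h1, h2, -⟩ := hT m hm.1
        exact ⟨h1, h2, rfl, hm.2⟩)
      (fun m _ m' _ => Nat.modEq_one) Nat.one_pos (by
        rw [Nat.one_mul]
        refine le_trans (Nat.pow_le_pow_right ?_ hr) hN
        unfold Nmax
        exact Nat.mul_pos (Nat.factorial_pos _) (Nat.pos_of_ne_zero (pow_ne_zero _ (by omega))))
      (by positivity)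
    rw [Nat.cast_one, mul_one] at hc
    rw [div_pow, ← mul_div_assoc, le_div_iff₀ (by positivity)]
    exact hc
  have hME : M / E ≤ 1 / 2 := by
    rw [div_le_iff₀ hEr]
    linarith
  have hME0 : 0 ≤ M / E := by positivity
  have hcov : T ⊆ (Icc 1 R).biUnion fun r => T.filter fun m =>
      Ext (G p m) (S p m) L Smax (C3 p L ^ R) r 0 1 ((E : ℝ) ^ r) := by
    intro m hm
    obtain ⟨r, h1, h2, h3⟩ := hex m hm
    rw [mem_biUnion]
    exact ⟨r, mem_Icc.mpr ⟨h1, h2⟩, mem_filter.mpr ⟨hm, h3⟩⟩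
  have h1 : (T.card : ℝ) ≤ ∑ r ∈ Icc 1 R, ((T.filter fun m =>
      Ext (G p m) (S p m) L Smax (C3 p L ^ R) r 0 1 ((E : ℝ) ^ r)).card : ℝ) := by
    exact_mod_cast (card_le_card hcov).trans card_biUnion_le
  have hgeo : ∀ n : ℕ, ∑ r ∈ Icc 1 n, (M / E) ^ r ≤ 2 * (M / E) * (1 - (1 / 2) ^ n) := by
    intro n
    induction n with
    | zero => simp
    | succ n ih =>
      rw [sum_Icc_succ_top (by omega)]
      have h2 : (M / E) ^ (n + 1) ≤ (M / E) * (1 / 2) ^ n := by
        rw [pow_succ, mul_comm]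
        exact mul_le_mul_of_nonneg_left (pow_le_pow_left₀ hME0 hME n) hME0
      calc _ ≤ 2 * (M / E) * (1 - (1 / 2) ^ n) + (M / E) * (1 / 2) ^ n := add_le_add ih h2
        _ = 2 * (M / E) * (1 - (1 / 2) ^ (n + 1)) := by rw [pow_succ]; ring
  calc (T.card : ℝ) ≤ _ := h1
    _ ≤ ∑ r ∈ Icc 1 R, 2 * X * (M / E) ^ r :=
        sum_le_sum fun r hr => hcount r (mem_Icc.mp hr).2
    _ = 2 * X * ∑ r ∈ Icc 1 R, (M / E) ^ r := by rw [mul_sum]
    _ ≤ 2 * X * (2 * (M / E) * (1 - (1 / 2) ^ R)) :=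
        mul_le_mul_of_nonneg_left (hgeo R) (by positivity)
    _ ≤ 2 * X * (2 * (M / E) * 1) := by
        gcongr
        have : (0 : ℝ) ≤ (1 / 2) ^ R := by positivity
        linarith
    _ = 4 * X * M / E := by ring

end Pool.Agent.L5helper22.GZ
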