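import Mathlib

/-!
# The number of the solutions of `z ^ p = 1` modulo `g`
-/

set_option autoImplicit false

open Finset

namespace Pool.Agent.L5helper22.GZ

/-- the solutions of `z ^ p = 1` modulo `g` -/
def rts (p g : ℕ) : Set (ZMod g) := {z | z ^ p = 1}

lemma rts_units (p g : ℕ) (hp : p ≠ 0) :
    rts p g = (fun u : (ZMod g)ˣ => (u : ZMod g)) '' {u | u ^ p = 1} := by
  ext z
  constructor
  · intro hz
    have hz' : z ^ p = 1 := hz
    have hu : IsUnit z := by
      refine IsUnit.of_pow_eq_one hz' hp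
    obtain ⟨u, rfl⟩ := hu
    exact ⟨u, by
      rw [Set.mem_setOf_eq]
      apply Units.ext
      rw [Units.val_pow_eq_pow_val, Units.val_one]
      exact hz', rfl⟩
  · rintro ⟨u, hu, rfl⟩
    rw [Set.mem_setOf_eq] at hu
    show (u : ZMod g) ^ p = 1
    rw [← Units.val_pow_eq_pow_val, hu, Units.val_one]

lemma rts_prime_pow {p r a : ℕ} (hp : p.Prime) (hr : r.Prime) (ha : 0 < a)
    (h : p ≠ 2 ∨ ¬ 4 ∣ r ^ a) : (rts p (r ^ a)).Finite ∧ (rts p (r ^ a)).ncard ≤ p := by
  have : NeZero (r ^ a) := ⟨pow_ne_zero _ hr.ne_zero⟩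
  refine ⟨Set.toFinite _, ?_⟩
  rw [rts_units p _ hp.ne_zero, Set.ncard_image_of_injective _ Units.val_injective]
  by_cases h2 : r = 2
  · subst h2
    by_cases hp2 : p = 2
    · subst hp2
      have ha1 : a = 1 := by
        rcases h with h | h
        · exact absurd rfl h
        · by_contra hne
          apply h
          have : (4 : ℕ) = 2 ^ 2 := rfl
          rw [this]
          exact pow_dvd_pow 2 (by omega)
      subst ha1
      calc {u : (ZMod (2 ^ 1))ˣ | u ^ 2 = 1}.ncard ≤ (Set.univ : Set (ZMod (2 ^ 1))ˣ).ncard :=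
            Set.ncard_le_ncard (Set.subset_univ _) Set.finite_univ
        _ = Nat.card (ZMod (2 ^ 1))ˣ := Set.ncard_univ _
        _ = (2 ^ 1).totient := by rw [Nat.card_eq_fintype_card, ZMod.card_units_eq_totient]
        _ ≤ 2 := by decide
    · have hone : {u : (ZMod (2 ^ a))ˣ | u ^ p = 1} ⊆ {1} := by
        intro u hu
        rw [Set.mem_setOf_eq] at hu
        rw [Set.mem_singleton_iff]
        have h1 : orderOf u ∣ p := orderOf_dvd_of_pow_eq_one hu
        have h2 : orderOf u ∣ Fintype.card (ZMod (2 ^ a))ˣ := orderOf_dvd_card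
        rw [ZMod.card_units_eq_totient, Nat.totient_prime_pow Nat.prime_two ha] at h2
        norm_num at h2
        have h3 : Nat.Coprime p (2 ^ (a - 1)) := by
          apply Nat.Coprime.pow_right
          rw [Nat.coprime_primes hp Nat.prime_two]
          exact hp2
        have h4 : orderOf u ∣ 1 := by
          rw [← Nat.Coprime.gcd_eq_one h3]
          exact Nat.dvd_gcd h1 h2
        exact orderOf_eq_one_iff.mp (Nat.dvd_one.mp h4)
      calc {u : (ZMod (2 ^ a))ˣ | u ^ p = 1}.ncard ≤ ({1} : Set (ZMod (2 ^ a))ˣ).ncard :=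
            Set.ncard_le_ncard hone
        _ = 1 := Set.ncard_singleton _
        _ ≤ p := hp.one_lt.le
  · have hc := ZMod.isCyclic_units_of_prime_pow r hr h2 a
    classical
    have h1 := IsCyclic.card_pow_eq_one_le (α := (ZMod (r ^ a))ˣ) hp.pos
    rw [Set.ncard_eq_toFinset_card']
    simpa using h1

lemma rts_ncard {p : ℕ} (hp : p.Prime) : ∀ g : ℕ, 0 < g → (p ≠ 2 ∨ ¬ 4 ∣ g) →
    (rts p g).Finite ∧ (rts p g).ncard ≤ p ^ g.primeFactors.card := by
  intro g
  induction g using Nat.recOnPosPrimePosCoprime with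
  | prime_pow r a hr ha =>
    intro _ h
    obtain ⟨h1, h2⟩ := rts_prime_pow hp hr ha h
    refine ⟨h1, h2.trans ?_⟩
    rw [Nat.primeFactors_prime_pow ha.ne' hr, card_singleton, pow_one]
  | zero => intro h; omega
  | one =>
    intro _ _
    refine ⟨Set.toFinite _, ?_⟩
    rw [Nat.primeFactors_one, card_empty, pow_zero]
    calc (rts p 1).ncard ≤ (Set.univ : Set (ZMod 1)).ncard :=
          Set.ncard_le_ncard (Set.subset_univ _) Set.finite_univ
      _ = 1 := by rw [Set.ncard_univ, Nat.card_eq_fintype_card, ZMod.card]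
  | coprime a b ha hb hab iha ihb =>
    intro _ h
    obtain ⟨fa, ca⟩ := iha (by omega) (h.imp_right fun h' h4 => h' (h4.mul_right b))
    obtain ⟨fb, cb⟩ := ihb (by omega) (h.imp_right fun h' h4 => h' (h4.mul_left a))
    have : NeZero (a * b) := ⟨by positivity⟩
    let e := ZMod.chineseRemainder hab
    have hsub : e '' rts p (a * b) ⊆ rts p a ×ˢ rts p b := by
      rintro _ ⟨z, hz, rfl⟩
      have hz' : z ^ p = 1 := hz
      have h1 : (e z) ^ p = 1 := by rw [← map_pow, hz', map_one]
      exact ⟨congrArg Prod.fst h1, congrArg Prod.snd h1⟩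
    refine ⟨Set.toFinite _, ?_⟩
    calc (rts p (a * b)).ncard = (e '' rts p (a * b)).ncard :=
          (Set.ncard_image_of_injective _ e.injective).symm
      _ ≤ (rts p a ×ˢ rts p b).ncard := Set.ncard_le_ncard hsub (fa.prod fb)
      _ = (rts p a).ncard * (rts p b).ncard := Set.ncard_prod
      _ ≤ p ^ a.primeFactors.card * p ^ b.primeFactors.card := Nat.mul_le_mul ca cb
      _ = p ^ (a * b).primeFactors.card := by
          rw [hab.primeFactors_mul, card_union_of_disjoint hab.disjoint_primeFactors, pow_add]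

/-- the residues `c` modulo `g` with `c ^ p = 1` -/
def cls (p g : ℕ) : Finset ℕ := (range g).filter fun c => c ^ p ≡ 1 [MOD g]

lemma card_cls {p g : ℕ} (hp : p.Prime) (hg : 0 < g) (h : p ≠ 2 ∨ ¬ 4 ∣ g) :
    (cls p g).card ≤ p ^ g.primeFactors.card := by
  obtain ⟨h1, h2⟩ := rts_ncard hp g hg h
  refine le_trans ?_ h2
  rw [← Set.ncard_coe_finset]
  refine Set.ncard_le_ncard_of_injOn (fun c : ℕ => (c : ZMod g)) ?_ ?_ h1
  · intro c hc
    rw [cls, coe_filter] at hc
    have := (ZMod.natCast_eq_natCast_iff _ _ _).mpr hc.2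
    push_cast at this
    exact this
  · intro c hc c' hc' hcc
    rw [cls, coe_filter] at hc hc'
    have h3 := (ZMod.natCast_eq_natCast_iff' _ _ _).mp hcc
    rwa [Nat.mod_eq_of_lt (mem_range.mp hc.1), Nat.mod_eq_of_lt (mem_range.mp hc'.1)] at h3

/-- the number of the `y ≤ Y` with `g ∣ y ^ p - 1` -/
lemma card_dvd {p g : ℕ} (hp : p.Prime) (hg : 0 < g) (h : p ≠ 2 ∨ ¬ 4 ∣ g) (Y : ℕ) :
    ((Icc 1 Y).filter fun y => y ^ p ≡ 1 [MOD g]).card ≤ p ^ g.primeFactors.card * (Y / g + 1) := by
  calc ((Icc 1 Y).filter fun y => y ^ p ≡ 1 [MOD g]).card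
      ≤ ((cls p g) ×ˢ (range (Y / g + 1))).card := by
        refine card_le_card_of_injOn (fun y => (y % g, y / g)) ?_ ?_
        · intro y hy
          rw [mem_coe, mem_filter, mem_Icc] at hy
          rw [mem_coe, mem_product, cls, mem_filter, mem_range, mem_range]
          exact ⟨⟨Nat.mod_lt _ hg, ((Nat.mod_modEq y g).pow p).trans hy.2⟩,
            Nat.lt_succ_of_le (Nat.div_le_div_right hy.1.2)⟩
        · intro y _ y' _ hyy
          simp only [Prod.mk.injEq] at hyy
          rw [← Nat.div_add_mod y g, ← Nat.div_add_mod y' g, hyy.1, hyy.2]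
    _ = (cls p g).card * (Y / g + 1) := by rw [card_product, card_range]
    _ ≤ _ := Nat.mul_le_mul_right _ (card_cls hp hg h)

end Pool.Agent.L5helper22.GZ
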