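import Pool.Agent.L5helper22.GZ.Proc

/-!
# The zeros of the recursion
-/

set_option autoImplicit false

open Finset

namespace Pool.Agent.L5helper22.GZ

/-- the recursion of the problem, after the time `n` -/
def IsRec (p n : ℕ) (a : ℕ → ℤ) : Prop :=
  ∀ k : ℕ, n < k → a k = |a (k - 1) - ((Int.gcd (a (k - 1)) ((k : ℤ) ^ p - 1) : ℕ) : ℤ)|

/-- the values after a zero -/
lemma value {p n : ℕ} {a : ℕ → ℤ} (ha : IsRec p n a) (hn : 1 ≤ n) (h0 : a n = 0) :
    ∀ i, (∀ j, j < i → a (n + 1 + j) ≠ 0) →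
      S p (n + 1) i ≤ V p (n + 1) ∧ a (n + 1 + i) = ((V p (n + 1) - S p (n + 1) i : ℕ) : ℤ) := by
  intro i
  induction i with
  | zero =>
    intro _
    refine ⟨Nat.zero_le _, ?_⟩
    rw [Nat.add_zero, ha (n + 1) (by omega), Nat.add_sub_cancel, h0]
    have e1 : (((n + 1 : ℕ) : ℤ)) ^ p - 1 = ((V p (n + 1) : ℕ) : ℤ) := (V_cast (by omega)).symm
    rw [e1, Int.gcd_zero_left, Int.natAbs_natCast]
    have e2 : S p (n + 1) 0 = 0 := rfl
    rw [e2, Nat.sub_zero, zero_sub, abs_neg, Nat.abs_cast]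
  | succ i ih =>
    intro hne
    obtain ⟨h1, h2⟩ := ih fun j hj => hne j (by omega)
    have h3 := hne i (by omega)
    have h4 : S p (n + 1) i < V p (n + 1) := by
      rcases Nat.lt_or_ge (S p (n + 1) i) (V p (n + 1)) with h | h
      · exact h
      · exfalso
        apply h3
        rw [h2, Nat.sub_eq_zero_of_le h]
        rfl
    have hstep : a (n + 1 + (i + 1)) = |((V p (n + 1) - S p (n + 1) i : ℕ) : ℤ) -
        ((G p (n + 1) i : ℕ) : ℤ)| := by
      have := ha (n + 1 + (i + 1)) (by omega)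
      rw [show n + 1 + (i + 1) - 1 = n + 1 + i by omega, h2] at this
      rw [this]
      have e1 : (((n + 1 + (i + 1) : ℕ) : ℤ)) ^ p - 1 = ((V p (n + 1 + i + 1) : ℕ) : ℤ) := by
        rw [V_cast (by omega)]
        push_cast
        ring
      rw [e1, Int.gcd_natCast_natCast]
      rfl
    have hle : G p (n + 1) i ≤ V p (n + 1) - S p (n + 1) i :=
      Nat.le_of_dvd (by omega) (Nat.gcd_dvd_left _ _)
    refine ⟨by rw [S_succ]; omega, ?_⟩
    rw [hstep, ← Nat.cast_sub hle, Nat.abs_cast, S_succ]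
    congr 1
    omega

/-- the descent of length at most `L` -/
def Short (p L n : ℕ) : Prop := ∃ b < L, S p (n + 1) b = V p (n + 1)

/-- the descent ends at the next zero -/
lemma short_of_zero {p n L : ℕ} {a : ℕ → ℤ} (ha : IsRec p n a) (hn : 1 ≤ n) (h0 : a n = 0)
    {n' : ℕ} (hnn : n < n') (hL : n' ≤ n + L) (h0' : a n' = 0) : Short p L n := by
  classical
  have hex : ∃ q, n < q ∧ a q = 0 := ⟨n', hnn, h0'⟩
  set q := Nat.find hex with hq
  obtain ⟨hq1, hq2⟩ : n < q ∧ a q = 0 := Nat.find_spec hex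
  have hq3 : q ≤ n' := Nat.find_min' hex ⟨hnn, h0'⟩
  have hne : ∀ j, n < j → j < q → a j ≠ 0 := fun j h1 h2 h3 => Nat.find_min hex h2 ⟨h1, h3⟩
  obtain ⟨h1, h2⟩ := value ha hn h0 (q - n - 1) fun j hj => hne _ (by omega) (by omega)
  rw [show n + 1 + (q - n - 1) = q by omega, hq2] at h2
  have h3 : V p (n + 1) - S p (n + 1) (q - n - 1) = 0 := by exact_mod_cast h2.symm
  exact ⟨q - n - 1, by omega, by omega⟩

/-- **Few short descents.** -/
theorem card_short {p : ℕ} (hp : p.Prime) (X L R k E Smax : ℕ) (H : ℝ) (hL : 0 < L) (hE : 0 < E)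
    (hLX : L + 1 ≤ X)
    (hR : L < 2 ^ R) (hS : (2 * L * E) ^ ee R 2 R ≤ Smax) (hN : Nmax p L Smax ^ R ≤ X)
    (hNX : Nmax p L Smax ≤ X) (hSX : Smax * L ≤ X)
    (hH : ∑ t ∈ range Smax, 1 / ((t : ℝ) + 1) ≤ H)
    (hM : 4 * L * ((L : ℝ) * H * ((Nat.log 2 X + 1) ^ (2 * (2 * p * k)) * p ^ (2 * p * k) : ℕ) *
      (C3 p L ^ R : ℕ)) ≤ E)
    (hkL : 4 * (L : ℝ) ^ 2 * (1 + Real.log ((2 * X : ℕ) : ℝ)) ^ p ≤ 2 ^ k)
    (Z : Finset ℕ) (hZ : ∀ n ∈ Z, 1 ≤ n ∧ n + 1 ≤ X ∧ Short p L n) :
    (Z.card : ℝ) ≤ 3 * X / L := by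
  classical
  have hLr : (0 : ℝ) < L := by exact_mod_cast hL
  have hL1 : (1 : ℝ) ≤ L := by exact_mod_cast hL
  have hEr : (0 : ℝ) < E := by exact_mod_cast hE
  set w := 2 * p * k with hw
  set M : ℝ := (L : ℝ) * H * ((Nat.log 2 X + 1) ^ (2 * w) * p ^ w : ℕ) * (C3 p L ^ R : ℕ) with hMd
  have hH0 : 0 ≤ H := le_trans (sum_nonneg fun t _ => by positivity) hH
  have hM0 : 0 ≤ M := by positivity
  -- the three classes
  set Z1 := Z.filter fun n => n < Smax with hZ1
  set Z2 := Z.filter fun n => ∃ i < L, w < (V p (n + 1 + i + 1)).primeFactors.card with hZ2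
  set Z3 := Z.filter fun n => Good p L Smax w (n + 1) ∧ ∃ b ≤ L, Smax ≤ S p (n + 1) b with hZ3
  have hcov : Z ⊆ Z1 ∪ Z2 ∪ Z3 := by
    intro n hn
    obtain ⟨hn1, hnX, b, hb1, hb2⟩ := hZ n hn
    by_contra hcon
    simp only [mem_union, not_or] at hcon
    obtain ⟨⟨c1, c2⟩, c3⟩ := hcon
    rw [hZ1, mem_filter, not_and] at c1
    rw [hZ2, mem_filter, not_and] at c2
    rw [hZ3, mem_filter, not_and] at c3
    replace c1 := c1 hn
    replace c2 := c2 hn
    replace c3 := c3 hn
    push Not at c1 c2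
    have hV : Smax ≤ V p (n + 1) := by
      have : n + 1 ≤ (n + 1) ^ p := Nat.le_self_pow hp.ne_zero _
      unfold V
      omega
    apply c3
    refine ⟨⟨by omega, hV, fun i hi => c2 i hi⟩, b, by omega, ?_⟩
    rw [hb2]
    exact hV
  have b1 : (Z1.card : ℝ) ≤ X / L := by
    have : Z1.card ≤ Smax := by
      calc Z1.card ≤ (range Smax).card := card_le_card fun n hn => by
            rw [hZ1, mem_filter] at hn
            exact mem_range.mpr hn.2
        _ = Smax := card_range _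
    rw [le_div_iff₀ hLr]
    have h2 : ((Smax * L : ℕ) : ℝ) ≤ X := by exact_mod_cast hSX
    push_cast at h2
    have h3 : (Z1.card : ℝ) ≤ Smax := by exact_mod_cast this
    nlinarith
  have b2 : (Z2.card : ℝ) ≤ X / L := by
    set A := (Icc 2 (2 * X)).filter fun y => 2 * p * k ≤ (y ^ p - 1).primeFactors.card with hA
    have h1 : Z2 ⊆ (range L).biUnion fun i => Z.filter fun n => n + 1 + i + 1 ∈ A := by
      intro n hn
      rw [hZ2, mem_filter] at hn
      obtain ⟨hnZ, i, hi, hωi⟩ := hn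
      obtain ⟨hn1, hnX, -⟩ := hZ n hnZ
      rw [mem_biUnion]
      refine ⟨i, mem_range.mpr hi, ?_⟩
      rw [mem_filter, hA, mem_filter, mem_Icc]
      exact ⟨hnZ, ⟨by omega, by omega⟩, hωi.le⟩
    have h2 : ∀ i, (Z.filter fun n => n + 1 + i + 1 ∈ A).card ≤ A.card := by
      intro i
      refine card_le_card_of_injOn (fun n => n + 1 + i + 1) ?_ ?_
      · intro n hn
        rw [mem_coe, mem_filter] at hn
        exact mem_coe.mpr hn.2
      · intro n _ n' _ h
        simp only at h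
        omega
    have h3 : Z2.card ≤ L * A.card := by
      calc Z2.card ≤ _ := card_le_card h1
        _ ≤ ∑ i ∈ range L, (Z.filter fun n => n + 1 + i + 1 ∈ A).card := card_biUnion_le
        _ ≤ ∑ _i ∈ range L, A.card := sum_le_sum fun i _ => h2 i
        _ = L * A.card := by rw [sum_const, card_range, smul_eq_mul]
    have h4 := card_many hp (2 * X) k
    rw [← hA] at h4
    have h5 : (Z2.card : ℝ) ≤ L * A.card := by exact_mod_cast h3
    have h6 : (A.card : ℝ) * (4 * (L : ℝ) ^ 2 * (1 + Real.log ((2 * X : ℕ) : ℝ)) ^ p) ≤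
        2 * ((2 * X : ℕ) : ℝ) * (1 + Real.log ((2 * X : ℕ) : ℝ)) ^ p :=
      (mul_le_mul_of_nonneg_left hkL (by positivity)).trans h4
    have h7 : (0 : ℝ) < (1 + Real.log ((2 * X : ℕ) : ℝ)) ^ p := by
      have h8 : (0 : ℝ) ≤ Real.log ((2 * X : ℕ) : ℝ) := Real.log_natCast_nonneg _
      positivity
    have h8 : (A.card : ℝ) * (L : ℝ) ^ 2 ≤ X := by
      have h9 : (A.card : ℝ) * (4 * (L : ℝ) ^ 2) ≤ 2 * ((2 * X : ℕ) : ℝ) := by
        apply le_of_mul_le_mul_right _ h7
        calc _ = (A.card : ℝ) * (4 * (L : ℝ) ^ 2 * (1 + Real.log ((2 * X : ℕ) : ℝ)) ^ p) := by ring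
          _ ≤ _ := h6
      push_cast at h9
      linarith
    rw [le_div_iff₀ hLr]
    calc (Z2.card : ℝ) * L ≤ L * A.card * L := mul_le_mul_of_nonneg_right h5 hLr.le
      _ = (A.card : ℝ) * (L : ℝ) ^ 2 := by ring
      _ ≤ X := h8
  have b3 : (Z3.card : ℝ) ≤ X / L := by
    have h1 := card_fast hp X L R w E Smax H hL hE hR hS hN hNX hH (by
      refine le_trans ?_ hM
      nlinarith) (Z3.image (· + 1)) (by
      intro m hm
      rw [mem_image] at hm
      obtain ⟨n, hn, rfl⟩ := hm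
      rw [hZ3, mem_filter] at hn
      exact ⟨hn.2.1, (hZ n hn.1).2.1, hn.2.2⟩)
    rw [card_image_of_injective _ (add_left_injective 1)] at h1
    refine h1.trans ?_
    rw [div_le_div_iff₀ hEr hLr]
    calc 4 * X * M * L = X * (4 * L * M) := by ring
      _ ≤ X * E := mul_le_mul_of_nonneg_left hM (by positivity)
  have hsum : (Z.card : ℝ) ≤ Z1.card + Z2.card + Z3.card := by
    have h1 : Z.card ≤ Z1.card + Z2.card + Z3.card := by
      calc Z.card ≤ (Z1 ∪ Z2 ∪ Z3).card := card_le_card hcov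
        _ ≤ (Z1 ∪ Z2).card + Z3.card := card_union_le _ _
        _ ≤ _ := by
            have := card_union_le Z1 Z2
            omega
    exact_mod_cast h1
  have e1 : 3 * (X : ℝ) / L = X / L + X / L + X / L := by ring
  rw [e1]
  linarith

/-- the zeros which are not followed by a short descent -/
theorem card_long {p X L : ℕ} (hL : 0 < L) {a : ℕ → ℤ} (ha : IsRec p 1 a) (Z : Finset ℕ)
    (hZ : ∀ n ∈ Z, 1 ≤ n ∧ n ≤ X ∧ a n = 0 ∧ ¬ Short p L n) : (Z.card : ℝ) ≤ X / L + 1 := by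
  have hgap : ∀ n ∈ Z, ∀ n' ∈ Z, n < n' → n + L < n' := by
    intro n hn n' hn' hlt
    by_contra hcon
    push Not at hcon
    obtain ⟨h1, -, h3, h4⟩ := hZ n hn
    exact h4 (short_of_zero (fun k hk => ha k (by omega)) h1 h3 hlt hcon (hZ n' hn').2.2.1)
  have h1 : Z.card ≤ X / L + 1 := by
    calc Z.card ≤ (range (X / L + 1)).card := by
          refine card_le_card_of_injOn (fun n => n / L) ?_ ?_
          · intro n hn
            have := (hZ n hn).2.1
            rw [mem_coe, mem_range]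
            exact Nat.lt_succ_of_le (Nat.div_le_div_right this)
          · intro n hn n' hn' h
            simp only at h
            by_contra hne
            rcases Nat.lt_or_ge n n' with hlt | hge
            · have h2 := hgap n hn n' hn' hlt
              have h4 : n / L + 1 ≤ n' / L := by
                rw [← Nat.add_div_right n hL]
                exact Nat.div_le_div_right h2.le
              omega
            · have h2 := hgap n' hn' n hn (by omega)
              have h4 : n' / L + 1 ≤ n / L := by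
                rw [← Nat.add_div_right n' hL]
                exact Nat.div_le_div_right h2.le
              omega
      _ = X / L + 1 := card_range _
  have h2 : (Z.card : ℝ) ≤ ((X / L : ℕ) : ℝ) + 1 := by exact_mod_cast h1
  have h3 : ((X / L : ℕ) : ℝ) ≤ X / L := Nat.cast_div_le
  linarith

end Pool.Agent.L5helper22.GZ
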